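import Pool.Agent.Helper70.TW.Goals

/-!
Packet NSUR for MP_c7dfba_nt (sums of two squares).
-/

set_option autoImplicit false

namespace Pool.Agent.Helper90.TW

open Pool.Agent.Helper70.TW

universe u

theorem nz {K : Type u} [Field K] (hK : ∀ x : K, x ^ 2 ≠ -1) {a b : K} (h : a ^ 2 + b ^ 2 = 0) :
    a = 0 ∧ b = 0 := by
  have hb : b = 0 := by
    by_contra hb
    refine hK (a / b) ?_
    rw [div_pow, div_eq_iff (pow_ne_zero 2 hb)]
    linear_combination h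
  subst hb
  refine ⟨?_, rfl⟩
  have h1 : a ^ 2 = 0 := by linear_combination h
  exact pow_eq_zero_iff two_ne_zero |>.1 h1

theorem nsur : NSUR.{u} := by
  intro K _ _ hK ⟨x0, y0, hxy⟩ hT c
  obtain ⟨A, B, C, hne, h⟩ := hT 1 ⟨-c, 0⟩ ⟨-x0, -y0⟩
  obtain ⟨a1, a2⟩ := A
  obtain ⟨b1, b2⟩ := B
  obtain ⟨c1, c2⟩ := C
  have e1 : a1 ^ 2 - a2 ^ 2 - c * (b1 ^ 2 - b2 ^ 2) -
      (x0 * (c1 ^ 2 - c2 ^ 2) - y0 * (2 * c1 * c2)) = 0 := by
    have := congrArg QuadraticAlgebra.re h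
    simp [pow_two] at this
    linear_combination this
  have e2 : 2 * a1 * a2 - 2 * c * b1 * b2 -
      (x0 * (2 * c1 * c2) + y0 * (c1 ^ 2 - c2 ^ 2)) = 0 := by
    have := congrArg QuadraticAlgebra.im h
    simp [pow_two] at this
    linear_combination this
  by_cases hn : c1 ^ 2 + c2 ^ 2 = 0
  · obtain ⟨h1, h2⟩ := nz hK hn
    subst h1 h2
    have hm : b1 ^ 2 + b2 ^ 2 ≠ 0 := fun hm => by
      obtain ⟨h1, h2⟩ := nz hK hm
      subst h1 h2
      have h3 : a1 ^ 2 = a2 ^ 2 := by linear_combination e1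
      have h4 : a1 * a2 = 0 := by
        have : (2 : K) * (a1 * a2) = 0 := by linear_combination e2
        exact (mul_eq_zero.1 this).resolve_left two_ne_zero
      have h5 : a1 = 0 ∧ a2 = 0 := by
        rcases mul_eq_zero.1 h4 with h5 | h5
        · subst h5
          have : a2 ^ 2 = 0 := by linear_combination -h3
          exact ⟨rfl, pow_eq_zero_iff two_ne_zero |>.1 this⟩
        · subst h5
          have : a1 ^ 2 = 0 := by linear_combination h3
          exact ⟨pow_eq_zero_iff two_ne_zero |>.1 this, rfl⟩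
      obtain ⟨h6, h7⟩ := h5
      subst h6 h7
      rcases hne with h8 | h8 | h8 <;> exact h8 rfl
    set m := b1 ^ 2 + b2 ^ 2 with hmdef
    have f1 : (a1 * b1 + a2 * b2) ^ 2 - (a2 * b1 - a1 * b2) ^ 2 = c * m ^ 2 := by
      rw [hmdef]
      linear_combination (b1 ^ 2 - b2 ^ 2) * e1 + 2 * b1 * b2 * e2
    have f2 : (a1 * b1 + a2 * b2) * (a2 * b1 - a1 * b2) = 0 := by
      have : (2 : K) * ((a1 * b1 + a2 * b2) * (a2 * b1 - a1 * b2)) = 0 := by
        linear_combination (b1 ^ 2 - b2 ^ 2) * e2 - 2 * b1 * b2 * e1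
      exact (mul_eq_zero.1 this).resolve_left two_ne_zero
    rcases mul_eq_zero.1 f2 with f3 | f3
    · rw [f3] at f1
      refine ⟨x0 * ((a2 * b1 - a1 * b2) / m), y0 * ((a2 * b1 - a1 * b2) / m), ?_⟩
      have : ((a2 * b1 - a1 * b2) / m) ^ 2 = -c := by
        rw [div_pow, div_eq_iff (pow_ne_zero 2 hm)]
        linear_combination -f1
      linear_combination ((a2 * b1 - a1 * b2) / m) ^ 2 * hxy - this
    · rw [f3] at f1
      refine ⟨(a1 * b1 + a2 * b2) / m, 0, ?_⟩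
      rw [div_pow, zero_pow two_ne_zero, add_zero, div_eq_iff (pow_ne_zero 2 hm)]
      linear_combination f1
  · set n := c1 ^ 2 + c2 ^ 2 with hndef
    set α1 := a1 * c1 + a2 * c2 with hα1
    set α2 := a2 * c1 - a1 * c2 with hα2
    set β1 := b1 * c1 + b2 * c2 with hβ1
    set β2 := b2 * c1 - b1 * c2 with hβ2
    have h1 : α1 ^ 2 - α2 ^ 2 - c * (β1 ^ 2 - β2 ^ 2) = x0 * n ^ 2 := by
      rw [hα1, hα2, hβ1, hβ2, hndef]
      linear_combination (c1 ^ 2 - c2 ^ 2) * e1 + 2 * c1 * c2 * e2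
    have h2 : 2 * α1 * α2 - 2 * c * β1 * β2 = y0 * n ^ 2 := by
      rw [hα1, hα2, hβ1, hβ2, hndef]
      linear_combination (c1 ^ 2 - c2 ^ 2) * e2 - 2 * c1 * c2 * e1
    set U := α1 ^ 2 + α2 ^ 2 + c * (β1 ^ 2 + β2 ^ 2) with hU
    set V := 2 * (α1 * β1 + α2 * β2) with hV
    have h3 : U ^ 2 - c * V ^ 2 = - (n ^ 2) ^ 2 := by
      have : U ^ 2 - c * V ^ 2 = (x0 * n ^ 2) ^ 2 + (y0 * n ^ 2) ^ 2 := by
        rw [← h1, ← h2, hU, hV]
        ring
      rw [this]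
      linear_combination n ^ 4 * hxy
    have hn2 : n ^ 2 ≠ 0 := pow_ne_zero 2 hn
    have hV0 : V ≠ 0 := fun h0 => by
      rw [h0] at h3
      refine hK (U / n ^ 2) ?_
      rw [div_pow, div_eq_iff (pow_ne_zero 2 hn2)]
      linear_combination h3
    refine ⟨U / V, n ^ 2 / V, ?_⟩
    rw [div_pow, div_pow, ← add_div, div_eq_iff (pow_ne_zero 2 hV0)]
    linear_combination h3

end Pool.Agent.Helper90.TW
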