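import Pool.Agent.Helper90.TW.ER3b
import Pool.Agent.Helper46.TU.ER

/-!
# ER3 (project T74 of helper76): the error term with the primes between `w` and `y`
-/

set_option autoImplicit false

open Finset Filter Topology

open scoped Classical

namespace Pool.Agent.Helper90.TW

open Pool.Agent.Helper76.TW
open Pool.Agent.Helper88.PP (pr Rg om Sf SS)
open Pool.Agent.Helper88.RR (nz gg)
open Pool.Agent.Helper88.GM (NI XI)
open Pool.Agent.Helper88.CG (tw pw th sg DS)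
open Pool.Agent.Helper88.TU (Su size size_gg)
open Pool.Agent.Helper6.RR (el alt alt_bound el_le)
open Pool.Agent.Helper64.RR (mem_pr)
open Pool.Agent.Helper53.CG (mem_SS hh hh_nonneg mem_DS w_hh inv_D)
open Pool.Agent.Helper46.TU (S_le2 hh_om thrK)

/-- the sum over the label functions -/
theorem lab_sum (C : ℝ) (hC : 1 ≤ C) : ∃ E0 : ℕ, ∀ E z : ℕ, E0 ≤ E → 2 ≤ z → ∀ o : ℝ, 0 ≤ o →
    ∀ K : ℕ, K ^ 3 ≤ E → ∀ P : Finset ℕ, (P.card : ℝ) * o ≤ (E : ℝ) ^ 2 →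
    4 * ∑ d ∈ (DS z (z ^ (2 * (E / 16))) K : Finset (P → ℕ)), ∏ i, hh (3 * C ^ 2 * o) (d i)
      ≤ Real.exp (1 / 2 * E) := by
  obtain ⟨cA, CA, hcA, hCA, hMA⟩ := Pool.Agent.Helper24.PP.ma
  have hB1 : 1 ≤ 3 * C ^ 2 * CA ^ 3 + 1 := by
    have : 0 ≤ 3 * C ^ 2 * CA ^ 3 := by positivity
    linarith
  obtain ⟨E7, hthrK⟩ := thrK 1 (3 * C ^ 2 * CA ^ 3 + 1) one_pos hB1
  refine ⟨max E7 16, fun E z hE hz o ho0 K hK P hPo => ?_⟩
  have hE7 : E7 ≤ E := (le_max_left _ _).trans hE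
  have h16 : 16 ≤ E := (le_max_right _ _).trans hE
  have hE0 : (0 : ℝ) < E := by
    have : 0 < E := by omega
    exact_mod_cast this
  have hE1 : (1 : ℝ) ≤ E := by
    have : 1 ≤ E := by omega
    exact_mod_cast this
  set Dm := z ^ (2 * (E / 16)) with hDmdef
  have g1 : SS z (Dm + 1) ⊆ SS z (z ^ (2 * (E / 16) + 1)) := by
    intro m hm
    obtain ⟨m1, m2, m3⟩ := mem_SS.1 hm
    refine mem_SS.2 ⟨m1, lt_of_lt_of_le m2 ?_, m3⟩
    rw [hDmdef, pow_succ]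
    have : 1 ≤ z ^ (2 * (E / 16)) := Nat.one_le_pow _ _ (by omega)
    calc z ^ (2 * (E / 16)) + 1 ≤ z ^ (2 * (E / 16)) * 2 := by omega
      _ ≤ z ^ (2 * (E / 16)) * z := Nat.mul_le_mul_left _ (by omega)
  have g2 := (hMA z (2 * (E / 16) + 1) (by omega) (by omega)).2.2
  have g3 : ((2 * (E / 16) + 1 : ℕ) : ℝ) ≤ E := by
    have : 2 * (E / 16) + 1 ≤ E := by omega
    exact_mod_cast this
  have g4 : ∑ m ∈ SS z (Dm + 1), (3 * C ^ 2 * o) * 3 ^ m.primeFactors.card / (m : ℝ) ≤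
      (3 * C ^ 2 * o) * (CA * E) ^ 3 := by
    calc ∑ m ∈ SS z (Dm + 1), (3 * C ^ 2 * o) * 3 ^ m.primeFactors.card / (m : ℝ)
        = (3 * C ^ 2 * o) * ∑ m ∈ SS z (Dm + 1), (3 : ℝ) ^ m.primeFactors.card / (m : ℝ) := by
          rw [Finset.mul_sum]
          exact Finset.sum_congr rfl fun m _ => by ring
      _ ≤ (3 * C ^ 2 * o) * ∑ m ∈ SS z (z ^ (2 * (E / 16) + 1)),
            (3 : ℝ) ^ m.primeFactors.card / (m : ℝ) := by
          apply mul_le_mul_of_nonneg_left _ (by positivity)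
          exact Finset.sum_le_sum_of_subset_of_nonneg g1 fun m _ _ => by positivity
      _ ≤ (3 * C ^ 2 * o) * (CA * ((2 * (E / 16) + 1 : ℕ) : ℝ)) ^ 3 :=
          mul_le_mul_of_nonneg_left g2 (by positivity)
      _ ≤ _ := by gcongr
  have g5 : (Fintype.card P : ℝ) * ((3 * C ^ 2 * o) * (CA * E) ^ 3) ≤
      (E : ℝ) ^ 2 * (3 * C ^ 2 * (CA * E) ^ 3) + 1 := by
    rw [Fintype.card_coe]
    have : (P.card : ℝ) * ((3 * C ^ 2 * o) * (CA * E) ^ 3) =
        (P.card * o) * (3 * C ^ 2 * (CA * E) ^ 3) := by ring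
    rw [this]
    have h5 : (P.card * o) * (3 * C ^ 2 * (CA * E) ^ 3) ≤
        (E : ℝ) ^ 2 * (3 * C ^ 2 * (CA * E) ^ 3) :=
      mul_le_mul_of_nonneg_right hPo (by positivity)
    linarith
  have g6 : 1 ≤ (E : ℝ) ^ 2 * (3 * C ^ 2 * (CA * E) ^ 3) + 1 := by
    have : 0 ≤ (E : ℝ) ^ 2 * (3 * C ^ 2 * (CA * E) ^ 3) := by positivity
    linarith
  have g7 := S_le2 (ι := P) z Dm K (3 * C ^ 2 * o) ((3 * C ^ 2 * o) * (CA * E) ^ 3)
    ((E : ℝ) ^ 2 * (3 * C ^ 2 * (CA * E) ^ 3) + 1) (by positivity) g6 g5 g4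
  have g8 : (E : ℝ) ^ 2 * (3 * C ^ 2 * (CA * E) ^ 3) + 1 ≤
      (3 * C ^ 2 * CA ^ 3 + 1) * (E : ℝ) ^ 5 := by
    have g0 : (1 : ℝ) ≤ (E : ℝ) ^ 5 := one_le_pow₀ hE1
    calc (E : ℝ) ^ 2 * (3 * C ^ 2 * (CA * E) ^ 3) + 1
        ≤ (E : ℝ) ^ 2 * (3 * C ^ 2 * (CA * E) ^ 3) + (E : ℝ) ^ 5 := by linarith
      _ = _ := by ring
  have g9 := hthrK E hE7 _ g6 g8 K hK
  linarith

/-- the sum of the reciprocals of the primes between `w` and `y` -/
theorem rec_sum (D : ℕ) : ∃ L0 : ℝ, 0 < L0 ∧ ∀ w y : ℕ, 2 ≤ y → w ≤ y → y ≤ w ^ D →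
    ∑ p ∈ pr w y, 1 / (p : ℝ) ≤ L0 := by
  obtain ⟨C5, hC5, hME⟩ := Pool.Agent.Helper69.LG.me
  have hl2 : 0 < Real.log 2 := Real.log_pos (by norm_num)
  have hD0 : 0 ≤ Real.log ((D : ℝ) + 1) := Real.log_nonneg (by
    have : (0 : ℝ) ≤ D := Nat.cast_nonneg D
    linarith)
  refine ⟨Real.log ((D : ℝ) + 1) + C5 / Real.log 2, by positivity, fun w y hy hwy hyw => ?_⟩
  have hw : 2 ≤ w := by
    by_contra h
    have h1 : w ≤ 1 := by omega
    have h2 : w ^ D ≤ 1 := pow_le_one₀ (Nat.zero_le w) h1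
    omega
  have h3 := hME (w : ℝ) y (by exact_mod_cast hw) (by exact_mod_cast hwy)
  have h4 : pr w y = (Icc 1 y).filter (fun p : ℕ => p.Prime ∧ (w : ℝ) < (p : ℝ)) := by
    ext p
    rw [mem_pr, mem_filter, mem_Icc]
    constructor
    · rintro ⟨a1, a2, a3⟩
      exact ⟨⟨a3.one_lt.le, a2⟩, a3, by exact_mod_cast a1⟩
    · rintro ⟨⟨a1, a2⟩, a3, a4⟩
      exact ⟨by exact_mod_cast a4, a2, a3⟩
  rw [h4]
  refine h3.trans ?_
  have hlw2 : Real.log 2 ≤ Real.log w := Real.log_le_log (by norm_num) (by exact_mod_cast hw)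
  have hlw : 0 < Real.log w := hl2.trans_le hlw2
  have hlyw : Real.log w ≤ Real.log y := Real.log_le_log (by
    have : 0 < w := by omega
    exact_mod_cast this) (by exact_mod_cast hwy)
  have hly : Real.log y ≤ D * Real.log w := by
    rw [← Real.log_pow]
    apply Real.log_le_log (by
      have : 0 < y := by omega
      exact_mod_cast this)
    exact_mod_cast hyw
  have h5 : Real.log y / Real.log w ≤ (D : ℝ) + 1 := by
    rw [div_le_iff₀ hlw]
    linarith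
  have h6 : Real.log (Real.log y / Real.log w) ≤ Real.log ((D : ℝ) + 1) :=
    Real.log_le_log (div_pos (hlw.trans_le hlyw) hlw) h5
  have h7 : C5 / Real.log w ≤ C5 / Real.log 2 := div_le_div_of_nonneg_left hC5.le hl2 hlw2
  linarith

/-- factorials win against powers -/
theorem fact_win (L0 : ℝ) (hL0 : 0 ≤ L0) : ∃ E0 : ℕ, ∀ E : ℕ, E0 ≤ E →
    L0 ^ (E + 1) / ((E + 1).factorial : ℝ) ≤ Real.exp (-(E : ℝ)) := by
  have h1 := FloorSemiring.tendsto_pow_div_factorial_atTop (L0 * Real.exp 1)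
  have h2 := (h1.eventually (gt_mem_nhds one_pos))
  obtain ⟨N, hN⟩ := eventually_atTop.1 h2
  refine ⟨N, fun E hE => ?_⟩
  have h3 := hN (E + 1) (by omega)
  have hf : (0 : ℝ) < ((E + 1).factorial : ℝ) := by exact_mod_cast (E + 1).factorial_pos
  rw [div_lt_one hf, mul_pow, ← Real.exp_nat_mul, mul_one] at h3
  rw [div_le_iff₀ hf]
  have h4 : L0 ^ (E + 1) ≤ ((E + 1).factorial : ℝ) * Real.exp (-((E + 1 : ℕ) : ℝ)) := by
    have h5 := mul_le_mul_of_nonneg_right h3.le (Real.exp_pos (-((E + 1 : ℕ) : ℝ))).le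
    rwa [mul_assoc, ← Real.exp_add, add_neg_cancel, Real.exp_zero, mul_one] at h5
  refine h4.trans ?_
  rw [mul_comm]
  apply mul_le_mul_of_nonneg_right _ hf.le
  apply Real.exp_le_exp.2
  push_cast
  linarith

/-- powers of `log x` with a fixed exponent are small -/
theorem log_win (E : ℕ) : ∃ x0 : ℕ, ∀ x y : ℕ, x0 ≤ x → (y : ℝ) ≤ Real.log x ^ 2 →
    (y ^ (E + 1)) ^ 40 ≤ x := by
  have h1 : ∀ᶠ t : ℝ in atTop, t ^ (2 * (E + 1) * 40) * Real.exp (-t) < 1 :=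
    (Real.tendsto_pow_mul_exp_neg_atTop_nhds_zero _).eventually (gt_mem_nhds one_pos)
  have h2 : Tendsto (fun x : ℕ => Real.log x) atTop atTop :=
    Real.tendsto_log_atTop.comp tendsto_natCast_atTop_atTop
  obtain ⟨N, hN⟩ := eventually_atTop.1 (h2.eventually h1)
  refine ⟨max N 1, fun x y hx hy => ?_⟩
  have h3 := hN x ((le_max_left _ _).trans hx)
  have hx1 : 1 ≤ x := (le_max_right _ _).trans hx
  have hx0 : (0 : ℝ) < x := by exact_mod_cast hx1
  rw [Real.exp_neg, Real.exp_log hx0, ← div_eq_mul_inv, div_lt_one hx0] at h3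
  have h4 : (((y ^ (E + 1)) ^ 40 : ℕ) : ℝ) ≤ x := by
    push_cast
    calc ((y : ℝ) ^ (E + 1)) ^ 40 ≤ ((Real.log x ^ 2) ^ (E + 1)) ^ 40 := by gcongr
      _ = Real.log x ^ (2 * (E + 1) * 40) := by rw [← pow_mul, ← pow_mul, mul_assoc]
      _ ≤ x := h3.le
  exact_mod_cast h4

/-- the classes for the sets of primes -/
theorem class_A {x y w Q b j E k : ℕ} (hIq : Iq x w Q b) (hwy : w ≤ y) (hy : 1 ≤ y)
    (hQ : Q ^ 40 ≤ x) (hyx : (y ^ (E + 1)) ^ 40 ≤ x) {A : Finset ℕ}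
    (hA : A ∈ (pr w y).powersetCard k) (hk : k ≤ E + 1) :
    ∃ b' : ℕ, Iq x y (Q * ∏ p ∈ A, p) b' ∧
      (NQ x Q b).filter (fun n => (∏ p ∈ A, p) ∣ n + j + 2) = NQ x (Q * ∏ p ∈ A, p) b' := by
  obtain ⟨hb, hpQ, -⟩ := hIq
  have hAs := (mem_powersetCard.1 hA).1
  have hM : 0 < ∏ p ∈ A, p := Finset.prod_pos fun p hp => (mem_pr.1 (hAs hp)).2.2.pos
  have co : Nat.Coprime Q (∏ p ∈ A, p) := by
    apply Nat.Coprime.prod_right
    intro p hp
    obtain ⟨h1, h2, h3⟩ := mem_pr.1 (hAs hp)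
    rw [Nat.coprime_comm, Nat.Prime.coprime_iff_not_dvd h3]
    intro h
    have := hpQ p h3 h
    omega
  obtain ⟨b', hb', hN⟩ := crt_filter x Q b (∏ p ∈ A, p) (j + 2) hb hM co
  refine ⟨b', ⟨hb', ?_, ?_⟩, ?_⟩
  · intro p hp hpd
    rcases (Nat.Prime.dvd_mul hp).1 hpd with h | h
    · exact (hpQ p hp h).trans hwy
    · obtain ⟨q, hq, h3⟩ := (Nat.Prime.prime hp).exists_mem_finset_dvd h
      have h4 := mem_pr.1 (hAs hq)
      have h5 := Nat.le_of_dvd h4.2.2.pos h3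
      omega
  · have h1 : ∏ p ∈ A, p ≤ y ^ (E + 1) :=
      (prod_le_pow hA).trans (Nat.pow_le_pow_right hy hk)
    have h2 : (∏ p ∈ A, p) ^ 40 ≤ x := (Nat.pow_le_pow_left h1 40).trans hyx
    have h3 : ((Q * ∏ p ∈ A, p) ^ 20) ^ 2 ≤ x ^ 2 := by
      calc ((Q * ∏ p ∈ A, p) ^ 20) ^ 2 = Q ^ 40 * (∏ p ∈ A, p) ^ 40 := by
            rw [← pow_mul, mul_pow]
        _ ≤ x * x := Nat.mul_le_mul hQ h2
        _ = x ^ 2 := (sq x).symm
    exact (Nat.pow_le_pow_iff_left two_ne_zero).1 h3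
  · rw [← hN]
    rfl

theorem er3 (h1 : StmtTLQ) (h2 : StmtER2) : StmtER3 := by
  intro C hC D
  obtain ⟨cT, hcT, E1, hTL⟩ := h1
  obtain ⟨c2, hc2, E2, hER⟩ := h2 C hC
  obtain ⟨E3, hsz⟩ := size
  obtain ⟨E4, hggs⟩ := size_gg (1 / 100) (by norm_num)
  obtain ⟨E5, hlab⟩ := lab_sum C hC
  obtain ⟨L0, hL0, hrec⟩ := rec_sum D
  obtain ⟨E6, hfact⟩ := fact_win L0 hL0.le
  obtain ⟨E7, hE7⟩ := exists_nat_ge ((L0 + 1) / (c2 / 2))
  refine ⟨min (c2 / 2) (1 / 4), lt_min (by positivity) (by norm_num),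
    max (max (max E1 E2) (max E3 E4)) (max (max E5 E6) (max E7 2000)), fun E hE => ?_⟩
  obtain ⟨x1, hx1⟩ := log_win E
  refine ⟨x1, fun z x y w hx hSu hwy hyw Q b hIq hQ K hK P hPo j hjP hs => ?_⟩
  have hE1 : E1 ≤ E := by omega
  have hE2 : E2 ≤ E := by omega
  have hE3 : E3 ≤ E := by omega
  have hE4 : E4 ≤ E := by omega
  have hE5 : E5 ≤ E := by omega
  have hE6 : E6 ≤ E := by omega
  have hE7' : E7 ≤ E := by omega
  have h2000 : 2000 ≤ E := by omega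
  have hE' : (2000 : ℝ) ≤ E := by exact_mod_cast h2000
  obtain ⟨-, -, -, -, -, -, hy2, -, hyz, hz64, hzx, -, -, -⟩ := hsz E z x y hE3 hSu
  obtain ⟨hoe, hggk⟩ := hggs E z x y hE4 hSu
  have hyx := hx1 x y hx hSu.2.2.2.2
  have hx1' : 1 ≤ x := by omega
  set Dm := z ^ (2 * (E / 16)) with hDmdef
  set o := om y z ^ 2 with hodef
  set X := XQ x Q with hXdef
  have hX0 : 0 ≤ X := by
    rw [hXdef]
    unfold XQ XI
    positivity
  have ho0 : 0 ≤ o := by positivity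
  set S' := ∑ d ∈ (DS z Dm K : Finset (P → ℕ)), ∏ i, hh (3 * C ^ 2 * o) (d i) with hS'def
  have hS' : 4 * S' ≤ Real.exp (1 / 2 * E) := hlab E z hE5 (by omega) o ho0 K hK P hPo
  have hKk : ∀ k ≤ K, (2 * k + 2) ^ 2 ≤ E := by
    intro k hk
    rcases le_or_gt K 9 with h | h
    · have : (2 * k + 2) ^ 2 ≤ (2 * 9 + 2) ^ 2 := Nat.pow_le_pow_left (by omega) 2
      omega
    · calc (2 * k + 2) ^ 2 ≤ (3 * K) ^ 2 := Nat.pow_le_pow_left (by omega) 2
        _ = 9 * K ^ 2 := by ring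
        _ ≤ K * K ^ 2 := Nat.mul_le_mul_right _ h.le
        _ = K ^ 3 := by ring
        _ ≤ E := hK
  set Wd : (P → ℕ) → ℝ := fun d => ∏ i, (if d i = 0 then 1 else 3 * C ^ 2 * 3 ^ (d i).primeFactors.card)
    with hWdef
  set Dv : (P → ℕ) → ℝ := fun d => ∏ i, (if d i = 0 then 1 else 1 / (d i : ℝ)) with hDvdef
  have hW0 : ∀ d, 0 ≤ Wd d := fun d => Finset.prod_nonneg fun i _ => by
    split_ifs
    · norm_num
    · positivity
  have hDv0 : ∀ d, 0 ≤ Dv d := fun d => Finset.prod_nonneg fun i _ => by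
    split_ifs
    · norm_num
    · positivity
  -- the splitting
  have hsplit : ∀ d : P → ℕ, |CJ x w y z j (NQ x Q b) d
        - CJ x w y z j (NQ x Q b) (fun i => sg (d i)) * Dv d| ≤
      ∑ k ∈ range (E + 2), ∑ A ∈ (pr w y).powersetCard k,
        |cA x y z j Q b A d - cA x y z j Q b A (fun i => sg (d i)) * Dv d|
      + 2 * ∑ A ∈ (pr w y).powersetCard (E + 1),
          cA x y z j Q b A (fun i => sg (d i)) * Dv d := fun d =>
    split hwy hyz x j Q b hx1' d (fun i => sg (d i)) E (Dv d) (hDv0 d)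
  -- first part
  have hp1 : ∀ k ∈ range (E + 2), ∀ A ∈ (pr w y).powersetCard k,
      ∑ d ∈ (DS z Dm K : Finset (P → ℕ)), Wd d *
        |cA x y z j Q b A d - cA x y z j Q b A (fun i => sg (d i)) * Dv d| ≤
      Real.exp (-(c2 * E)) * (o * X) * ∏ p ∈ A, (1 / (p : ℝ)) := by
    intro k hk A hA
    obtain ⟨b', hb', hN⟩ := class_A (j := j) hIq hwy (by omega) hQ hyx hA
      (by have := mem_range.1 hk; omega)
    have h3 := hER E z x y hE2 hSu _ b' hb' K hK P hPo j hjP hs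
    unfold cA
    rw [hN]
    refine h3.trans (le_of_eq ?_)
    rw [XQ_mul, Finset.prod_div_distrib, Finset.prod_const_one]
    push_cast
    ring
  have hsum1 : ∑ k ∈ range (E + 2), ∑ A ∈ (pr w y).powersetCard k, ∏ p ∈ A, (1 / (p : ℝ)) ≤
      Real.exp L0 := by
    have h3 := hrec w y hy2 hwy hyw
    have h4 : 0 ≤ ∑ p ∈ pr w y, 1 / (p : ℝ) := Finset.sum_nonneg fun p _ => by positivity
    calc ∑ k ∈ range (E + 2), ∑ A ∈ (pr w y).powersetCard k, ∏ p ∈ A, (1 / (p : ℝ))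
        ≤ ∑ k ∈ range (E + 2), (∑ p ∈ pr w y, 1 / (p : ℝ)) ^ k / (k.factorial : ℝ) :=
          Finset.sum_le_sum fun k _ => el_le (x := fun p => 1 / (p : ℝ)) (pr w y)
            (fun p _ => by positivity) k
      _ ≤ Real.exp (∑ p ∈ pr w y, 1 / (p : ℝ)) := Real.sum_le_exp_of_nonneg h4 _
      _ ≤ Real.exp L0 := Real.exp_le_exp.2 h3
  have hpart1 : ∑ d ∈ (DS z Dm K : Finset (P → ℕ)), Wd d *
      (∑ k ∈ range (E + 2), ∑ A ∈ (pr w y).powersetCard k,
        |cA x y z j Q b A d - cA x y z j Q b A (fun i => sg (d i)) * Dv d|) ≤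
      Real.exp (-(c2 * E)) * (o * X) * Real.exp L0 := by
    calc ∑ d ∈ (DS z Dm K : Finset (P → ℕ)), Wd d *
      (∑ k ∈ range (E + 2), ∑ A ∈ (pr w y).powersetCard k,
        |cA x y z j Q b A d - cA x y z j Q b A (fun i => sg (d i)) * Dv d|)
        = ∑ k ∈ range (E + 2), ∑ A ∈ (pr w y).powersetCard k,
          ∑ d ∈ (DS z Dm K : Finset (P → ℕ)), Wd d *
          |cA x y z j Q b A d - cA x y z j Q b A (fun i => sg (d i)) * Dv d| := by
          simp only [Finset.mul_sum]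
          rw [Finset.sum_comm]
          refine Finset.sum_congr rfl fun k _ => ?_
          rw [Finset.sum_comm]
      _ ≤ ∑ k ∈ range (E + 2), ∑ A ∈ (pr w y).powersetCard k,
          Real.exp (-(c2 * E)) * (o * X) * ∏ p ∈ A, (1 / (p : ℝ)) :=
          Finset.sum_le_sum fun k hk => Finset.sum_le_sum fun A hA => hp1 k hk A hA
      _ = Real.exp (-(c2 * E)) * (o * X) * ∑ k ∈ range (E + 2),
          ∑ A ∈ (pr w y).powersetCard k, ∏ p ∈ A, (1 / (p : ℝ)) := by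
          simp only [Finset.mul_sum]
      _ ≤ _ := mul_le_mul_of_nonneg_left hsum1 (by positivity)
  -- second part
  have hsum2 : ∑ A ∈ (pr w y).powersetCard (E + 1), ∏ p ∈ A, (1 / (p : ℝ)) ≤
      Real.exp (-(E : ℝ)) := by
    have h3 := hrec w y hy2 hwy hyw
    have h4 : 0 ≤ ∑ p ∈ pr w y, 1 / (p : ℝ) := Finset.sum_nonneg fun p _ => by positivity
    calc ∑ A ∈ (pr w y).powersetCard (E + 1), ∏ p ∈ A, (1 / (p : ℝ))
        ≤ (∑ p ∈ pr w y, 1 / (p : ℝ)) ^ (E + 1) / ((E + 1).factorial : ℝ) :=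
          el_le (x := fun p => 1 / (p : ℝ)) (pr w y) (fun p _ => by positivity) (E + 1)
      _ ≤ L0 ^ (E + 1) / ((E + 1).factorial : ℝ) := by gcongr
      _ ≤ _ := hfact E hE6
  have hp2 : ∀ d ∈ (DS z Dm K : Finset (P → ℕ)), ∀ A ∈ (pr w y).powersetCard (E + 1),
      cA x y z j Q b A (fun i => sg (d i)) ≤
        2 * (X * (∏ p ∈ A, (1 / (p : ℝ))) * (o * o ^ nz d)) := by
    intro d hd A hA
    obtain ⟨-, -, hm3⟩ := mem_DS.1 hd
    have hk := hKk (nz d) hm3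
    obtain ⟨g1, g2, -⟩ := hggk (2 * nz d + 2) hk
    have hgg0 : 0 ≤ gg y z (2 * nz d + 2) := (Real.exp_pos _).le.trans g1
    have h3 := cA_le (E := E) (w := w) (Real.exp (-(cT * E)))
      (Real.exp_le_one_iff.2 (by
        have : 0 ≤ cT * E := by positivity
        linarith)) (by omega) hzx hx1' hjP hs d hk hgg0 Q b A
      (class_A (j := j) hIq hwy (by omega) hQ hyx hA le_rfl)
      (fun Q b hI B hB hB2 d hd1 hd2 hd3 =>
        ((hTL E z x y hE1 hSu Q b hI B hB hB2 d hd1 hd2).1 hd3).1)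
    refine h3.trans ?_
    have h4 : (1 : ℝ) / ((∏ p ∈ A, p : ℕ) : ℝ) = ∏ p ∈ A, (1 / (p : ℝ)) := by
      rw [Finset.prod_div_distrib, Finset.prod_const_one]
      push_cast
      rfl
    rw [h4]
    have h5 : o * o ^ nz d = om y z ^ (2 * nz d + 2) := by
      rw [hodef, ← pow_mul, ← pow_add]
      congr 1
      ring
    rw [h5]
    have h6 : 0 ≤ ∏ p ∈ A, (1 / (p : ℝ)) := Finset.prod_nonneg fun p _ => by positivity
    have h7 : 0 ≤ X * ∏ p ∈ A, (1 / (p : ℝ)) := mul_nonneg hX0 h6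
    have h8 := mul_le_mul_of_nonneg_left g2 h7
    linarith
  have hpart2 : ∑ d ∈ (DS z Dm K : Finset (P → ℕ)), Wd d *
      (2 * ∑ A ∈ (pr w y).powersetCard (E + 1),
          cA x y z j Q b A (fun i => sg (d i)) * Dv d) ≤
      4 * (X * o * Real.exp (-(E : ℝ))) * S' := by
    rw [hS'def, Finset.mul_sum]
    refine Finset.sum_le_sum fun d hd => ?_
    have h3 : ∑ A ∈ (pr w y).powersetCard (E + 1),
          cA x y z j Q b A (fun i => sg (d i)) * Dv d ≤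
        2 * (X * Real.exp (-(E : ℝ)) * (o * o ^ nz d)) * Dv d := by
      rw [← Finset.sum_mul]
      apply mul_le_mul_of_nonneg_right _ (hDv0 d)
      calc ∑ A ∈ (pr w y).powersetCard (E + 1), cA x y z j Q b A (fun i => sg (d i))
          ≤ ∑ A ∈ (pr w y).powersetCard (E + 1),
            2 * (X * (∏ p ∈ A, (1 / (p : ℝ))) * (o * o ^ nz d)) :=
            Finset.sum_le_sum fun A hA => hp2 d hd A hA
        _ = 2 * (X * (∑ A ∈ (pr w y).powersetCard (E + 1), ∏ p ∈ A, (1 / (p : ℝ))) *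
            (o * o ^ nz d)) := by
            rw [← Finset.mul_sum, ← Finset.sum_mul, ← Finset.mul_sum]
        _ ≤ _ := by gcongr
    have h4 : Wd d * Dv d = ∏ i, hh (3 * C ^ 2) (d i) := by
      rw [w_hh, ← inv_D]
    calc Wd d * (2 * ∑ A ∈ (pr w y).powersetCard (E + 1),
          cA x y z j Q b A (fun i => sg (d i)) * Dv d)
        ≤ Wd d * (2 * (2 * (X * Real.exp (-(E : ℝ)) * (o * o ^ nz d)) * Dv d)) := by
          apply mul_le_mul_of_nonneg_left _ (hW0 d)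
          linarith
      _ = 4 * (X * o * Real.exp (-(E : ℝ))) * (o ^ nz d * (Wd d * Dv d)) := by ring
      _ = _ := by rw [h4, ← hh_om]
  -- conclusion
  have htot : ∑ d ∈ (DS z Dm K : Finset (P → ℕ)), Wd d *
      |CJ x w y z j (NQ x Q b) d
        - CJ x w y z j (NQ x Q b) (fun i => sg (d i)) * Dv d| ≤
      Real.exp (-(c2 * E)) * (o * X) * Real.exp L0 + 4 * (X * o * Real.exp (-(E : ℝ))) * S' := by
    refine le_trans ?_ (add_le_add hpart1 hpart2)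
    rw [← Finset.sum_add_distrib]
    refine Finset.sum_le_sum fun d _ => ?_
    rw [← mul_add]
    exact mul_le_mul_of_nonneg_left (hsplit d) (hW0 d)
  refine htot.trans ?_
  have hoX : 0 ≤ o * X := mul_nonneg ho0 hX0
  have hE0 : (0 : ℝ) ≤ E := by linarith
  have k0 : Real.exp (-1) ≤ 1 / 2 := by
    rw [Real.exp_neg, ← one_div]
    apply one_div_le_one_div_of_le (by norm_num)
    have := Real.exp_one_gt_d9
    linarith
  have hc1 : min (c2 / 2) (1 / 4) * (E : ℝ) ≤ c2 / 2 * E :=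
    mul_le_mul_of_nonneg_right (min_le_left _ _) hE0
  have hc3 : min (c2 / 2) (1 / 4) * (E : ℝ) ≤ 1 / 4 * E :=
    mul_le_mul_of_nonneg_right (min_le_right _ _) hE0
  have k1 : Real.exp (-(c2 * E)) * Real.exp L0 ≤
      Real.exp (-(min (c2 / 2) (1 / 4) * E)) * (1 / 2) := by
    have h3 : L0 + 1 ≤ c2 / 2 * E := by
      have h4 : (L0 + 1) / (c2 / 2) ≤ E := hE7.trans (by exact_mod_cast hE7')
      rw [div_le_iff₀ (by positivity)] at h4
      linarith
    calc Real.exp (-(c2 * E)) * Real.exp L0 = Real.exp (-(c2 * E) + L0) := (Real.exp_add _ _).symm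
      _ ≤ Real.exp (-(min (c2 / 2) (1 / 4) * E) + -1) := by
          apply Real.exp_le_exp.2
          linarith
      _ = Real.exp (-(min (c2 / 2) (1 / 4) * E)) * Real.exp (-1) := Real.exp_add _ _
      _ ≤ _ := mul_le_mul_of_nonneg_left k0 (Real.exp_pos _).le
  have k2 : Real.exp (-(E : ℝ)) * (4 * S') ≤
      Real.exp (-(min (c2 / 2) (1 / 4) * E)) * (1 / 2) := by
    calc Real.exp (-(E : ℝ)) * (4 * S') ≤ Real.exp (-(E : ℝ)) * Real.exp (1 / 2 * E) :=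
          mul_le_mul_of_nonneg_left hS' (Real.exp_pos _).le
      _ = Real.exp (-(E : ℝ) + 1 / 2 * E) := (Real.exp_add _ _).symm
      _ ≤ Real.exp (-(min (c2 / 2) (1 / 4) * E) + -1) := by
          apply Real.exp_le_exp.2
          linarith
      _ = Real.exp (-(min (c2 / 2) (1 / 4) * E)) * Real.exp (-1) := Real.exp_add _ _
      _ ≤ _ := mul_le_mul_of_nonneg_left k0 (Real.exp_pos _).le
  have k3 := mul_le_mul_of_nonneg_right k1 hoX
  have k4 := mul_le_mul_of_nonneg_right k2 hoX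
  calc Real.exp (-(c2 * E)) * (o * X) * Real.exp L0 + 4 * (X * o * Real.exp (-(E : ℝ))) * S'
      = Real.exp (-(c2 * E)) * Real.exp L0 * (o * X)
        + Real.exp (-(E : ℝ)) * (4 * S') * (o * X) := by ring
    _ ≤ Real.exp (-(min (c2 / 2) (1 / 4) * E)) * (1 / 2) * (o * X)
        + Real.exp (-(min (c2 / 2) (1 / 4) * E)) * (1 / 2) * (o * X) := add_le_add k3 k4
    _ = _ := by ring

end Pool.Agent.Helper90.TW
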