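import Pool.Agent.Helper90.TW.YFun

set_option autoImplicit false

namespace Pool.Agent.Helper90.TW

open Complex Pool.Agent.Helper83.TW Filter Topology

/-- the linear form `a dx + b dy` -/
noncomputable def lf (a b : ℂ) : ℂ × ℂ →L[ℂ] ℂ :=
  a • ContinuousLinearMap.fst ℂ ℂ ℂ + b • ContinuousLinearMap.snd ℂ ℂ ℂ

@[simp] theorem lf_apply (a b : ℂ) (v : ℂ × ℂ) : lf a b v = a * v.1 + b * v.2 := by
  simp [lf]

theorem lf_norm (a b : ℂ) : ‖lf a b‖ ≤ ‖a‖ + ‖b‖ := by
  refine ContinuousLinearMap.opNorm_le_bound _ (by positivity) fun v => ?_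
  rw [lf_apply]
  have h1 := norm_fst_le v
  have h2 := norm_snd_le v
  calc ‖a * v.1 + b * v.2‖ ≤ ‖a‖ * ‖v.1‖ + ‖b‖ * ‖v.2‖ := by
        refine (norm_add_le _ _).trans ?_
        rw [norm_mul, norm_mul]
    _ ≤ ‖a‖ * ‖v‖ + ‖b‖ * ‖v‖ := by gcongr
    _ = _ := by ring

theorem compd {F : ℂ × ℂ → ℂ} {a b : ℂ} {φ ψ : ℂ → ℂ} {φ' ψ' z : ℂ}
    (hF : HasFDerivAt F (lf a b) (φ z, ψ z)) (hφ : HasDerivAt φ φ' z) (hψ : HasDerivAt ψ ψ' z) :
    HasDerivAt (fun w => F (φ w, ψ w)) (a * φ' + b * ψ') z := by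
  have := hF.comp_hasDerivAt z (hφ.prodMk hψ)
  rw [show lf a b (φ', ψ') = a * φ' + b * ψ' from by simp] at this
  exact this

theorem partials {F : ℂ × ℂ → ℂ} {a b : ℂ} {p : ℂ × ℂ} (hF : HasFDerivAt F (lf a b) p) :
    D1 F p = a ∧ D2 F p = b := by
  have h1 : HasDerivAt (fun z => F (z, p.2)) (a * 1 + b * 0) p.1 :=
    compd (φ := fun z => z) (ψ := fun _ => p.2) hF (hasDerivAt_id _) (hasDerivAt_const _ _)
  have h2 : HasDerivAt (fun z => F (p.1, z)) (a * 0 + b * 1) p.2 :=
    compd (φ := fun _ => p.1) (ψ := fun z => z) hF (hasDerivAt_const _ _) (hasDerivAt_id _)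
  refine ⟨?_, ?_⟩
  · show deriv (fun z => F (z, p.2)) p.1 = a
    rw [h1.deriv]; ring
  · show deriv (fun z => F (p.1, z)) p.2 = b
    rw [h2.deriv]; ring

theorem convex_DG (ρ : ℝ) : Convex ℝ (DG ρ) := by
  have h1 : DG ρ = ({z : ℂ | |z.im| < ρ} ×ˢ {z : ℂ | 1/4 < z.re ∧ z.re < 11/4 ∧ |z.im| < ρ}) := by
    ext p
    simp [DG, Set.mem_prod]
  rw [h1]
  have h2 : {z : ℂ | |z.im| < ρ} = Complex.imCLM ⁻¹' (Set.Ioo (-ρ) ρ) := by
    ext z; simp [abs_lt]
  have h3 : {z : ℂ | 1/4 < z.re ∧ z.re < 11/4 ∧ |z.im| < ρ} =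
      (Complex.reCLM ⁻¹' (Set.Ioo (1/4) (11/4))) ∩ (Complex.imCLM ⁻¹' (Set.Ioo (-ρ) ρ)) := by
    ext z
    simp [abs_lt, and_assoc]
  rw [h2, h3]
  refine Convex.prod ?_ (Convex.inter ?_ ?_)
  · exact (convex_Ioo _ _).is_linear_preimage Complex.imCLM.toLinearMap.isLinear
  · exact (convex_Ioo _ _).is_linear_preimage Complex.reCLM.toLinearMap.isLinear
  · exact (convex_Ioo _ _).is_linear_preimage Complex.imCLM.toLinearMap.isLinear

theorem gGen (hD : GD12) (hO : GOsg) (hC : GCau) : GGen := by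
  intro P Q ρ η h
  obtain ⟨y, hyH, hyb, hye, hyu⟩ := exists_y hO hC h
  have e1 := h.hρ0
  have e2 := h.hρ1
  have e3 := h.hη
  have e4 := h.hη0
  set D := DG (ρ/2) with hDdef
  have hDo : IsOpen D := isOpen_DG _
  have hDc : Convex ℝ D := convex_DG _
  have hWo := isOpen_WG ρ
  -- total derivatives
  have tot : ∀ (F : ℂ × ℂ → ℂ) (U : Set (ℂ × ℂ)), IsOpen U → DifferentiableOn ℂ F U →
      ∀ p ∈ U, HasFDerivAt F (lf (D1 F p) (D2 F p)) p := fun F U hU hF p hp =>
    (hD F U hU hF).2.2.2 p hp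
  have hq : ∀ p ∈ D, (p.1, p.2 + y p) ∈ WG ρ := fun p hp => mem_W h hp (hyb p hp)
  -- Z and V
  set Z : ℂ × ℂ → ℂ := fun p => Q (p.1, p.2 + y p) with hZdef
  set V : ℂ × ℂ → ℂ := fun p => y p + Z p with hVdef
  have hZH : Hol Z D := by
    refine ⟨?_, ?_, ?_⟩
    · have h1 : DifferentiableOn ℂ (fun p : ℂ × ℂ => (p.1, p.2 + y p)) D :=
        differentiable_fst.differentiableOn.prodMk
          (differentiable_snd.differentiableOn.add hyH.diff)
      exact h.hQ.diff.comp h1 hq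
    · intro p hp
      show Q (p.1 + 1, p.2 + y (p.1 + 1, p.2)) = Q (p.1, p.2 + y p)
      rw [hyH.per p hp]
      exact h.hQ.per _ (hq p hp)
    · intro p hp
      show Q (cj p.1, cj p.2 + y (cj p.1, cj p.2)) = cj (Q (p.1, p.2 + y p))
      rw [hyH.sym p hp, ← h.hQ.sym _ (hq p hp)]
      simp
  have hVH : Hol V D := by
    refine ⟨hyH.diff.add hZH.diff, ?_, ?_⟩
    · intro p hp
      show y (p.1 + 1, p.2) + Z (p.1 + 1, p.2) = y p + Z p
      rw [hyH.per p hp, hZH.per p hp]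
    · intro p hp
      show y (cj p.1, cj p.2) + Z (cj p.1, cj p.2) = cj (y p + Z p)
      rw [hyH.sym p hp, hZH.sym p hp]
      simp
  have hZb : ∀ p ∈ D, ‖Z p‖ ≤ η := fun p hp => h.bQ _ (hq p hp)
  have hVb : ∀ p ∈ D, ‖V p‖ ≤ 2 * η := fun p hp =>
    (norm_add_le _ _).trans (by linarith [hyb p hp, hZb p hp])
  -- closedness
  have hclosed : ∀ p ∈ D, D2 Z p = D1 V p := by
    intro p hp
    have hqp := hq p hp
    have tP := tot P _ hWo h.hP.diff _ hqp
    have tQ := tot Q _ hWo h.hQ.diff _ hqp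
    have ty := tot y _ hDo hyH.diff _ hp
    set A := D1 P (p.1, p.2 + y p) with hA
    set B := D2 P (p.1, p.2 + y p) with hB
    set C := D1 Q (p.1, p.2 + y p) with hC'
    set E := D2 Q (p.1, p.2 + y p) with hE
    have hdet : (1 + A) * (1 + E) - (1 + B) * C = 1 := h.det _ hqp
    have hB1 : ‖B‖ ≤ 1/10 :=
      deriv_le (x := p.1) (z := p.2 + y p) hC h (x_lt h hp) (mem_CC h hp (hyb p hp))
    -- slices of y
    have y1 : HasDerivAt (fun z => y (z, p.2)) (D1 y p) p.1 := by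
      have := compd (φ := fun z => z) (ψ := fun _ => p.2) ty (hasDerivAt_id _)
        (hasDerivAt_const _ _)
      simpa using this
    have y2 : HasDerivAt (fun z => y (p.1, z)) (D2 y p) p.2 := by
      have := compd (φ := fun _ => p.1) (ψ := fun z => z) ty (hasDerivAt_const _ _)
        (hasDerivAt_id _)
      simpa using this
    have s1 : HasDerivAt (fun z => p.2 + y (z, p.2)) (D1 y p) p.1 := by
      simpa using y1.const_add p.2
    have s2 : HasDerivAt (fun z => z + y (p.1, z)) (1 + D2 y p) p.2 := (hasDerivAt_id _).add y2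
    have P1 : HasDerivAt (fun z => P (z, p.2 + y (z, p.2))) (A * 1 + B * D1 y p) p.1 :=
      compd (φ := fun z => z) (ψ := fun z => p.2 + y (z, p.2)) tP (hasDerivAt_id _) s1
    have P2 : HasDerivAt (fun z => P (p.1, z + y (p.1, z))) (A * 0 + B * (1 + D2 y p)) p.2 :=
      compd (φ := fun _ => p.1) (ψ := fun z => z + y (p.1, z)) tP (hasDerivAt_const _ _) s2
    have Q1 : HasDerivAt (fun z => Q (z, p.2 + y (z, p.2))) (C * 1 + E * D1 y p) p.1 :=
      compd (φ := fun z => z) (ψ := fun z => p.2 + y (z, p.2)) tQ (hasDerivAt_id _) s1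
    have Q2 : HasDerivAt (fun z => Q (p.1, z + y (p.1, z))) (C * 0 + E * (1 + D2 y p)) p.2 :=
      compd (φ := fun _ => p.1) (ψ := fun z => z + y (p.1, z)) tQ (hasDerivAt_const _ _) s2
    have nb1 : ∀ᶠ z in 𝓝 p.1, (z, p.2) ∈ D := by
      have hc : ContinuousAt (fun z : ℂ => (z, p.2)) p.1 := by fun_prop
      exact hc (hDo.mem_nhds hp)
    have nb2 : ∀ᶠ z in 𝓝 p.2, (p.1, z) ∈ D := by
      have hc : ContinuousAt (fun z : ℂ => (p.1, z)) p.2 := by fun_prop
      exact hc (hDo.mem_nhds hp)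
    have z1 : D1 y p + (A * 1 + B * D1 y p) = 0 := by
      have h1 := y1.add P1
      have h2 : (fun z => y (z, p.2)) + (fun z => P (z, p.2 + y (z, p.2))) =ᶠ[𝓝 p.1]
          fun _ => (0 : ℂ) := by
        filter_upwards [nb1] with z hz
        exact hye _ hz
      exact (h1.congr_of_eventuallyEq h2.symm).unique (hasDerivAt_const _ _)
    have z2 : D2 y p + (A * 0 + B * (1 + D2 y p)) = 0 := by
      have h1 := y2.add P2
      have h2 : (fun z => y (p.1, z)) + (fun z => P (p.1, z + y (p.1, z))) =ᶠ[𝓝 p.2]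
          fun _ => (0 : ℂ) := by
        filter_upwards [nb2] with z hz
        exact hye _ hz
      exact (h1.congr_of_eventuallyEq h2.symm).unique (hasDerivAt_const _ _)
    have w2 : D2 Z p = C * 0 + E * (1 + D2 y p) := Q2.deriv
    have w1 : D1 V p = D1 y p + (C * 1 + E * D1 y p) := (y1.add Q1).deriv
    rw [w2, w1]
    have hB0 : (1 : ℂ) + B ≠ 0 := by
      intro h0
      have h1 : B = -1 := by linear_combination h0
      rw [h1] at hB1
      norm_num at hB1
    apply mul_left_cancel₀ hB0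
    linear_combination E * z2 - (1 + E) * z1 + hdet
  -- the primitive
  obtain ⟨g0, hg0⟩ := Convex.exists_forall_hasFDerivAt_of_fderiv_symmetric
    (ω := fun p : ℂ × ℂ => lf (Z p) (V p)) hDc hDo
    (by
      have h1 : DifferentiableOn ℂ (fun p : ℂ × ℂ => lf (Z p) (V p)) D := by
        unfold lf
        exact (hZH.diff.smul_const _).add (hVH.diff.smul_const _)
      exact h1.restrictScalars ℝ)
    (by
      intro p hp u v
      have h1 : HasFDerivAt (fun p : ℂ × ℂ => lf (Z p) (V p))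
          ((lf (D1 Z p) (D2 Z p)).smulRight (ContinuousLinearMap.fst ℂ ℂ ℂ) +
            (lf (D1 V p) (D2 V p)).smulRight (ContinuousLinearMap.snd ℂ ℂ ℂ)) p := by
        have a1 := (tot Z _ hDo hZH.diff p hp).smul_const (ContinuousLinearMap.fst ℂ ℂ ℂ)
        have a2 := (tot V _ hDo hVH.diff p hp).smul_const (ContinuousLinearMap.snd ℂ ℂ ℂ)
        exact a1.add a2
      have h2 := (h1.restrictScalars ℝ).fderiv
      rw [h2]
      simp only [ContinuousLinearMap.coe_restrictScalars', ContinuousLinearMap.add_apply,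
        ContinuousLinearMap.smulRight_apply, ContinuousLinearMap.smul_apply, lf_apply,
        ContinuousLinearMap.coe_fst', ContinuousLinearMap.coe_snd', smul_eq_mul]
      rw [hclosed p hp]
      ring)
  have h01 : ((0 : ℂ), (1 : ℂ)) ∈ D := by
    refine ⟨?_, ?_, ?_, ?_⟩
    · simpa using e1
    · norm_num
    · norm_num
    · simpa using e1
  set g : ℂ × ℂ → ℂ := fun p => g0 p - g0 (0, 1) with hgdef
  have hg : ∀ p ∈ D, HasFDerivAt g (lf (Z p) (V p)) p := fun p hp =>
    (hg0 p hp).sub_const _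
  have hgd : DifferentiableOn ℂ g D := fun p hp => (hg p hp).differentiableAt.differentiableWithinAt
  have hgz : g (0, 1) = 0 := by simp [hgdef]
  -- functions with the same derivative differ by a constant
  have hconst : ∀ (F G : ℂ × ℂ → ℂ), (∀ p ∈ D, HasFDerivAt F (lf (Z p) (V p)) p) →
      (∀ p ∈ D, HasFDerivAt G (lf (Z p) (V p)) p) → ∀ p ∈ D, F p - G p = F (0, 1) - G (0, 1) := by
    intro F G hF hG p hp
    have hFG : ∀ p ∈ D, HasFDerivAt (fun p => F p - G p) (0 : ℂ × ℂ →L[ℂ] ℂ) p := by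
      intro p hp
      have := (hF p hp).sub (hG p hp)
      rwa [sub_self] at this
    exact hDo.is_const_of_fderiv_eq_zero (𝕜 := ℂ) hDc.isPreconnected
      (fun p hp => (hFG p hp).differentiableAt.differentiableWithinAt)
      (fun p hp => (hFG p hp).fderiv) hp h01
  -- symmetric function
  have hs1 : ∀ p ∈ D, HasDerivAt (fun z => cj (g (cj z, cj p.2))) (Z p) p.1 := by
    intro p hp
    have hpc := DG_cj hp
    have h2 : HasDerivAt (fun z => g (z, cj p.2))
        (Z (cj p.1, cj p.2) * 1 + V (cj p.1, cj p.2) * 0) (cj p.1) :=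
      compd (φ := fun z => z) (ψ := fun _ => cj p.2) (hg _ hpc) (hasDerivAt_id _)
        (hasDerivAt_const _ _)
    have h3 := h2.conj_conj
    have h4 : (starRingEnd ℂ) (Z (cj p.1, cj p.2) * 1 + V (cj p.1, cj p.2) * 0) = Z p := by
      rw [hZH.sym p hp]
      simp
    rw [h4, conj_conj] at h3
    exact h3
  have hs2 : ∀ p ∈ D, HasDerivAt (fun z => cj (g (cj p.1, cj z))) (V p) p.2 := by
    intro p hp
    have hpc := DG_cj hp
    have h2 : HasDerivAt (fun z => g (cj p.1, z))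
        (Z (cj p.1, cj p.2) * 0 + V (cj p.1, cj p.2) * 1) (cj p.2) :=
      compd (φ := fun _ => cj p.1) (ψ := fun z => z) (hg _ hpc) (hasDerivAt_const _ _)
        (hasDerivAt_id _)
    have h3 := h2.conj_conj
    have h4 : (starRingEnd ℂ) (Z (cj p.1, cj p.2) * 0 + V (cj p.1, cj p.2) * 1) = V p := by
      rw [hVH.sym p hp]
      simp
    rw [h4, conj_conj] at h3
    exact h3
  have hgs : ∀ p ∈ D, g (cj p.1, cj p.2) = cj (g p) := by
    have hc : DifferentiableOn ℂ (fun p : ℂ × ℂ => cj (g (cj p.1, cj p.2))) D := by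
      refine hO.1 _ D hDo ?_ (fun p hp => (hs1 p hp).differentiableAt)
        (fun p hp => (hs2 p hp).differentiableAt)
      have c1 : ContinuousOn (fun p : ℂ × ℂ => g (cj p.1, cj p.2)) D := by
        refine hgd.continuousOn.comp (f := fun p : ℂ × ℂ => (cj p.1, cj p.2)) ?_
          (fun p hp => DG_cj hp)
        exact ((Complex.continuous_conj.comp continuous_fst).prodMk
          (Complex.continuous_conj.comp continuous_snd)).continuousOn
      exact Complex.continuous_conj.comp_continuousOn c1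
    have hG : ∀ p ∈ D, HasFDerivAt (fun p : ℂ × ℂ => cj (g (cj p.1, cj p.2)))
        (lf (Z p) (V p)) p := by
      intro p hp
      have h1 := tot _ D hDo hc p hp
      have h2 : D1 (fun p : ℂ × ℂ => cj (g (cj p.1, cj p.2))) p = Z p := (hs1 p hp).deriv
      have h3 : D2 (fun p : ℂ × ℂ => cj (g (cj p.1, cj p.2))) p = V p := (hs2 p hp).deriv
      rw [h2, h3] at h1
      exact h1
    intro p hp
    have h1 := hconst _ _ hG hg p hp
    have h2 : cj (g (cj (0 : ℂ), cj (1 : ℂ))) - g (0, 1) = 0 := by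
      simp [hgz]
    rw [h2] at h1
    have h3 : cj (g (cj p.1, cj p.2)) = g p := sub_eq_zero.1 h1
    rw [← h3]
    simp
  -- periodicity
  have hgp : ∀ p ∈ D, g (p.1 + 1, p.2) = g p + g (0 + 1, 1) := by
    have hG : ∀ p ∈ D, HasFDerivAt (fun p : ℂ × ℂ => g (p.1 + 1, p.2)) (lf (Z p) (V p)) p := by
      intro p hp
      have h1 := hg _ (DG_shift hp)
      rw [hZH.per p hp, hVH.per p hp] at h1
      have h2 : HasFDerivAt (fun p : ℂ × ℂ => (p.1 + 1, p.2))
          (ContinuousLinearMap.id ℂ (ℂ × ℂ)) p := by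
        have h3 : (fun p : ℂ × ℂ => (p.1 + 1, p.2)) = fun p => p + (1, 0) := by
          funext p
          ext <;> simp
        rw [h3]
        exact (hasFDerivAt_id p).add_const _
      have h4 := h1.comp p h2
      rw [ContinuousLinearMap.comp_id] at h4
      exact h4
    intro p hp
    have h1 := hconst _ _ hG hg p hp
    simp only [hgz, sub_zero] at h1
    linear_combination h1
  -- partial derivatives
  have hg1 : ∀ p ∈ D, D1 g p = Z p ∧ D2 g p = V p := fun p hp => partials (hg p hp)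
  -- bound
  have hgb : ∀ p ∈ D, |p.1.re| ≤ 1 → ‖g p‖ ≤ 6 * η := by
    intro p hp hx
    have h1 := Convex.norm_image_sub_le_of_norm_hasFDerivWithin_le (𝕜 := ℂ) (f := g)
      (f' := fun p => lf (Z p) (V p)) (C := 3 * η) (s := D)
      (fun q hq => (hg q hq).hasFDerivWithinAt)
      (fun q hq => (lf_norm _ _).trans (by linarith [hZb q hq, hVb q hq])) hDc h01 hp
    rw [hgz, sub_zero] at h1
    have h2 : ‖p - (0, 1)‖ ≤ 15/8 := by
      obtain ⟨a, b, c, d⟩ := hp
      rw [abs_lt] at a d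
      rw [abs_le] at hx
      rw [Prod.norm_def]
      refine max_le ?_ ?_
      · refine (Complex.norm_le_abs_re_add_abs_im _).trans ?_
        have h3 : |(p - (0, 1)).1.re| ≤ 1 := by
          simpa [abs_le] using hx
        have h4 : |(p - (0, 1)).1.im| ≤ 1/8 := by
          have : (p - (0, 1)).1.im = p.1.im := by simp
          rw [this, abs_le]
          constructor <;> linarith
        linarith
      · refine (Complex.norm_le_abs_re_add_abs_im _).trans ?_
        have h3 : |(p - (0, 1)).2.re| ≤ 7/4 := by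
          have : (p - (0, 1)).2.re = p.2.re - 1 := by simp
          rw [this, abs_le]
          constructor <;> linarith
        have h4 : |(p - (0, 1)).2.im| ≤ 1/8 := by
          have : (p - (0, 1)).2.im = p.2.im := by simp
          rw [this, abs_le]
          constructor <;> linarith
        linarith
    calc ‖g p‖ ≤ 3 * η * ‖p - (0, 1)‖ := h1
      _ ≤ 3 * η * (15/8) := by gcongr
      _ ≤ 6 * η := by linarith
  -- real points
  have memD : ∀ x d : ℝ, 1/4 < d → d < 11/4 → ((x : ℂ), (d : ℂ)) ∈ D := by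
    intro x d h1 h2
    refine ⟨?_, ?_, ?_, ?_⟩
    · simpa using e1
    · simpa using h1
    · simpa using h2
    · simpa using e1
  have hPre : ∀ x Y : ℝ, 1/16 < Y → Y < 47/16 →
      P ((x:ℂ), (Y:ℂ)) = (((P ((x:ℂ), (Y:ℂ))).re : ℝ) : ℂ) ∧ ((x:ℂ), (Y:ℂ)) ∈ WG ρ := by
    intro x Y h1 h2
    have hm : ((x:ℂ), (Y:ℂ)) ∈ WG ρ := by
      refine ⟨?_, ?_, ?_, ?_⟩
      · simpa using e1
      · simpa using h1
      · simpa using h2
      · simpa using e1
    refine ⟨?_, hm⟩
    have h3 := h.hP.sym _ hm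
    simp only [Complex.conj_ofReal] at h3
    exact (Complex.conj_eq_iff_re.1 h3.symm).symm
  refine ⟨y, g, g (0 + 1, 1), ⟨hgd, hgs, hgp, hgb, hyH, hyb, hye, fun p hp => (hg1 p hp).1,
    fun p hp => (hg1 p hp).2, ?_, ?_⟩⟩
  · intro x Y h1 h2 h3 h4
    obtain ⟨h5, h6⟩ := hPre x Y h1 h2
    have h7 := memD x _ h3 h4
    have h8 := hyu _ h7 (-P ((x:ℂ), (Y:ℂ))) (by rw [norm_neg]; exact h.bP _ h6) (by
      have h9 : (((Y + (P ((x:ℂ), (Y:ℂ))).re : ℝ) : ℂ)) + -P ((x:ℂ), (Y:ℂ)) = (Y : ℂ) := by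
        rw [Complex.ofReal_add, ← h5]
        ring
      simp only [h9]
      ring)
    rw [← h8]
    simp
  · intro x d d' h1 h2 h3
    have m1 := memD x d h1 (by linarith)
    have m2 := memD x d' (by linarith) h3
    have yre : ∀ d : ℝ, ((x : ℂ), (d : ℂ)) ∈ D →
        y ((x:ℂ), (d:ℂ)) = (((y ((x:ℂ), (d:ℂ))).re : ℝ) : ℂ) := by
      intro d hd
      have h3 := hyH.sym _ hd
      simp only [Complex.conj_ofReal] at h3
      exact (Complex.conj_eq_iff_re.1 h3.symm).symm
    have r1 := yre d m1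
    have r2 := yre d' m2
    set a := (y ((x:ℂ), (d:ℂ))).re with ha
    set b := (y ((x:ℂ), (d':ℂ))).re with hb
    by_contra hcon
    push Not at hcon
    have q1 := hye _ m1
    have q2 := hye _ m2
    simp only [r1, r2] at q1 q2
    have l1 := lip (x := (x:ℂ)) (z := (d':ℂ) + (b:ℂ)) (z' := (d:ℂ) + (a:ℂ)) hC h
      (by simpa using e1)
      (by rw [← r2]; exact mem_CC (p := ((x:ℂ), (d':ℂ))) h m2 (hyb _ m2))
      (by rw [← r1]; exact mem_CC (p := ((x:ℂ), (d:ℂ))) h m1 (hyb _ m1))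
    have l2 : P ((x:ℂ), (d':ℂ) + (b:ℂ)) - P ((x:ℂ), (d:ℂ) + (a:ℂ)) = (((a - b : ℝ)) : ℂ) := by
      push_cast
      linear_combination q2 - q1
    have l3 : ((d':ℂ) + (b:ℂ)) - ((d:ℂ) + (a:ℂ)) = (((d' + b - (d + a) : ℝ)) : ℂ) := by
      push_cast
      ring
    rw [l2, l3, Complex.norm_real, Complex.norm_real, Real.norm_eq_abs, Real.norm_eq_abs,
      abs_of_nonpos (show d' + b - (d + a) ≤ 0 by linarith)] at l1
    have l4 := le_abs_self (a - b)
    linarith

end Pool.Agent.Helper90.TW
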