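import Pool.Agent.Helper76.TW.Goals
import Pool.Agent.Helper46.TU.ERa
import Pool.Agent.Helper6.RR.BO
import Pool.Agent.Helper69.LG.ME

/-!
# ER3 (project T74 of helper76), part A: the sieve by the primes between `w` and `y`
-/

set_option autoImplicit false

open Finset Filter Topology

open scoped Classical

namespace Pool.Agent.Helper90.TW

open Pool.Agent.Helper76.TW
open Pool.Agent.Helper88.PP (pr Rg om Sf SS)
open Pool.Agent.Helper88.RR (nz gg)
open Pool.Agent.Helper88.GM (NI XI)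
open Pool.Agent.Helper88.CG (tw pw th sg DS)
open Pool.Agent.Helper88.TU (Su)
open Pool.Agent.Helper6.RR (el alt alt_bound el_le)
open Pool.Agent.Helper53.CG (pw_bd)
open Pool.Agent.Helper64.RR (mem_pr)

/-- the indicator of `p ∣ m` -/
noncomputable def xd (m p : ℕ) : ℝ := if p ∣ m then 1 else 0

theorem xd_bd (m p : ℕ) : 0 ≤ xd m p ∧ xd m p ≤ 1 := by
  unfold xd
  split_ifs <;> norm_num

/-- a product of different primes divides `m` if and only if all of them do -/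
theorem prod_dvd_iff (A : Finset ℕ) (hA : ∀ p ∈ A, p.Prime) (m : ℕ) :
    (∏ p ∈ A, p) ∣ m ↔ ∀ p ∈ A, p ∣ m := by
  constructor
  · intro h p hp
    exact (Finset.dvd_prod_of_mem _ hp).trans h
  · intro h
    exact Finset.prod_primes_dvd _ (fun p hp => (hA p hp).prime) h

theorem prod_xd (A : Finset ℕ) (hA : ∀ p ∈ A, p.Prime) (m : ℕ) :
    ∏ p ∈ A, xd m p = if (∏ p ∈ A, p) ∣ m then 1 else 0 := by
  by_cases h : (∏ p ∈ A, p) ∣ m
  · rw [if_pos h]
    refine Finset.prod_eq_one fun p hp => ?_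
    rw [xd, if_pos ((prod_dvd_iff A hA m).1 h p hp)]
  · rw [if_neg h]
    rw [prod_dvd_iff A hA m] at h
    push Not at h
    obtain ⟨p, hp, h1⟩ := h
    exact Finset.prod_eq_zero hp (by rw [xd, if_neg h1])

/-- no prime of `S` divides `m` -/
theorem prod_one_sub_xd (S : Finset ℕ) (m : ℕ) :
    ∏ p ∈ S, (1 - xd m p) = if ∀ p ∈ S, ¬ p ∣ m then 1 else 0 := by
  by_cases h : ∀ p ∈ S, ¬ p ∣ m
  · rw [if_pos h]
    refine Finset.prod_eq_one fun p hp => ?_
    rw [xd, if_neg (h p hp), sub_zero]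
  · rw [if_neg h]
    push Not at h
    obtain ⟨p, hp, h1⟩ := h
    exact Finset.prod_eq_zero hp (by rw [xd, if_pos h1, sub_self])

theorem sum_el (N S : Finset ℕ) (hS : ∀ p ∈ S, p.Prime) (F : ℕ → ℝ) (mm : ℕ → ℕ) (k : ℕ) :
    ∑ n ∈ N, F n * el (xd (mm n)) k S =
      ∑ A ∈ S.powersetCard k, ∑ n ∈ N.filter (fun n => (∏ p ∈ A, p) ∣ mm n), F n := by
  unfold el
  simp only [Finset.mul_sum]
  rw [Finset.sum_comm]
  refine Finset.sum_congr rfl fun A hA => ?_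
  rw [Finset.sum_filter]
  refine Finset.sum_congr rfl fun n _ => ?_
  rw [prod_xd A (fun p hp => hS p ((mem_powersetCard.1 hA).1 hp))]
  split_ifs
  · ring
  · ring

/-- truncated inclusion-exclusion -/
theorem bonf (N S : Finset ℕ) (hS : ∀ p ∈ S, p.Prime) (F : ℕ → ℝ) (hF : ∀ n ∈ N, 0 ≤ F n)
    (mm : ℕ → ℕ) (r : ℕ) :
    |∑ n ∈ N, F n * ∏ p ∈ S, (1 - xd (mm n) p)
      - ∑ k ∈ range (r + 1), (-1) ^ k *
        ∑ A ∈ S.powersetCard k, ∑ n ∈ N.filter (fun n => (∏ p ∈ A, p) ∣ mm n), F n|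
    ≤ ∑ A ∈ S.powersetCard (r + 1), ∑ n ∈ N.filter (fun n => (∏ p ∈ A, p) ∣ mm n), F n := by
  have h1 : ∑ k ∈ range (r + 1), (-1) ^ k *
        ∑ A ∈ S.powersetCard k, ∑ n ∈ N.filter (fun n => (∏ p ∈ A, p) ∣ mm n), F n =
      ∑ n ∈ N, F n * alt (xd (mm n)) r S := by
    have e1 : ∀ k ∈ range (r + 1), (-1 : ℝ) ^ k *
        ∑ A ∈ S.powersetCard k, ∑ n ∈ N.filter (fun n => (∏ p ∈ A, p) ∣ mm n), F n =
        ∑ n ∈ N, F n * ((-1) ^ k * el (xd (mm n)) k S) := by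
      intro k _
      rw [← sum_el N S hS F mm k, Finset.mul_sum]
      refine Finset.sum_congr rfl fun n _ => ?_
      ring
    rw [Finset.sum_congr rfl e1, Finset.sum_comm]
    refine Finset.sum_congr rfl fun n _ => ?_
    rw [alt, Finset.mul_sum]
  rw [h1, ← sum_el N S hS F mm (r + 1), ← Finset.sum_sub_distrib]
  refine (Finset.abs_sum_le_sum_abs _ _).trans (Finset.sum_le_sum fun n hn => ?_)
  rw [← mul_sub, abs_mul, abs_of_nonneg (hF n hn)]
  exact mul_le_mul_of_nonneg_left (alt_bound S (fun p _ => xd_bd _ _) r) (hF n hn)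

theorem icR_bd (R : ℕ → Prop) (d m : ℕ) : 0 ≤ icR R d m ∧ icR R d m ≤ 1 := by
  rw [icR]
  split_ifs <;> norm_num

theorem pj_bd (x w z j n : ℕ) (hx : 1 ≤ x) : 0 ≤ pj x w z j n ∧ pj x w z j n ≤ 1 := by
  obtain ⟨h1, h2⟩ := pw_bd (32 * x) (n + j) (by omega)
  rw [pj]
  split_ifs
  · rw [mul_one]
    exact ⟨h1, h2⟩
  · rw [mul_zero]
    exact ⟨le_rfl, zero_le_one⟩

theorem Rg_split {w y z : ℕ} (hwy : w ≤ y) (hyz : y ≤ z) (m : ℕ) :
    Rg w z m ↔ (∀ p ∈ pr w y, ¬ p ∣ m) ∧ Rg y z m := by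
  unfold Rg
  constructor
  · intro h
    refine ⟨fun p hp => h p ?_, fun p hp => h p ?_⟩
    · obtain ⟨h1, h2, h3⟩ := mem_pr.1 hp
      exact mem_pr.2 ⟨h1, h2.trans hyz, h3⟩
    · obtain ⟨h1, h2, h3⟩ := mem_pr.1 hp
      exact mem_pr.2 ⟨lt_of_le_of_lt hwy h1, h2, h3⟩
  · rintro ⟨h1, h2⟩ p hp
    obtain ⟨h3, h4, h5⟩ := mem_pr.1 hp
    rcases le_or_gt p y with h | h
    · exact h1 p (mem_pr.2 ⟨h3, h, h5⟩)
    · exact h2 p (mem_pr.2 ⟨h, h4, h5⟩)

theorem pj_split {w y z : ℕ} (hwy : w ≤ y) (hyz : y ≤ z) (x j n : ℕ) :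
    pj x w z j n = pj x y z j n * ∏ p ∈ pr w y, (1 - xd (n + j + 2) p) := by
  rw [prod_one_sub_xd, pj, pj]
  by_cases h1 : ∀ p ∈ pr w y, ¬ p ∣ n + j + 2
  · by_cases h2 : Rg y z (n + j + 2)
    · rw [if_pos h1, if_pos h2, if_pos ((Rg_split hwy hyz _).2 ⟨h1, h2⟩)]
      ring
    · rw [if_pos h1, if_neg h2, if_neg (fun h => h2 ((Rg_split hwy hyz _).1 h).2)]
      ring
  · rw [if_neg h1, if_neg (fun h => h1 ((Rg_split hwy hyz _).1 h).1)]
    ring

/-- the contribution of the set `A` of primes -/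
noncomputable def cA (x y z j Q b : ℕ) {P : Finset ℕ} (A : Finset ℕ) (d : P → ℕ) : ℝ :=
  CJ x y y z j ((NQ x Q b).filter (fun n => (∏ p ∈ A, p) ∣ n + j + 2)) d

theorem cA_nonneg (x y z j Q b : ℕ) (hx : 1 ≤ x) {P : Finset ℕ} (A : Finset ℕ) (d : P → ℕ) :
    0 ≤ cA x y z j Q b A d := by
  unfold cA CJ
  exact Finset.sum_nonneg fun n _ => mul_nonneg (pj_bd x y z j n hx).1
    (Finset.prod_nonneg fun i _ => (icR_bd _ _ _).1)

theorem cj_bonf {w y z : ℕ} (hwy : w ≤ y) (hyz : y ≤ z) (x j Q b : ℕ) (hx : 1 ≤ x)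
    {P : Finset ℕ} (d : P → ℕ) (r : ℕ) :
    |CJ x w y z j (NQ x Q b) d - ∑ k ∈ range (r + 1), (-1) ^ k *
        ∑ A ∈ (pr w y).powersetCard k, cA x y z j Q b A d|
    ≤ ∑ A ∈ (pr w y).powersetCard (r + 1), cA x y z j Q b A d := by
  have h1 := bonf (NQ x Q b) (pr w y) (fun p hp => (mem_pr.1 hp).2.2)
    (fun n => pj x y z j n * ∏ i : P, icR (R2 y z) (d i) (n + (i : ℕ)))
    (fun n _ => mul_nonneg (pj_bd x y z j n hx).1
      (Finset.prod_nonneg fun i _ => (icR_bd _ _ _).1)) (fun n => n + j + 2) r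
  have h2 : CJ x w y z j (NQ x Q b) d = ∑ n ∈ NQ x Q b,
      (pj x y z j n * ∏ i : P, icR (R2 y z) (d i) (n + (i : ℕ))) *
        ∏ p ∈ pr w y, (1 - xd (n + j + 2) p) := by
    unfold CJ
    refine Finset.sum_congr rfl fun n _ => ?_
    rw [pj_split hwy hyz x j n]
    ring
  rw [h2]
  exact h1

/-- the splitting of the difference -/
theorem split {w y z : ℕ} (hwy : w ≤ y) (hyz : y ≤ z) (x j Q b : ℕ) (hx : 1 ≤ x)
    {P : Finset ℕ} (d d' : P → ℕ) (r : ℕ) (t : ℝ) (ht : 0 ≤ t) :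
    |CJ x w y z j (NQ x Q b) d - CJ x w y z j (NQ x Q b) d' * t| ≤
      ∑ k ∈ range (r + 2), ∑ A ∈ (pr w y).powersetCard k,
        |cA x y z j Q b A d - cA x y z j Q b A d' * t|
      + 2 * ∑ A ∈ (pr w y).powersetCard (r + 1), cA x y z j Q b A d' * t := by
  have h1 := cj_bonf hwy hyz x j Q b hx d r
  have h2 := cj_bonf hwy hyz x j Q b hx d' r
  set c1 := CJ x w y z j (NQ x Q b) d
  set c2 := CJ x w y z j (NQ x Q b) d'
  set a1 := ∑ k ∈ range (r + 1), (-1) ^ k *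
        ∑ A ∈ (pr w y).powersetCard k, cA x y z j Q b A d with ha1
  set a2 := ∑ k ∈ range (r + 1), (-1) ^ k *
        ∑ A ∈ (pr w y).powersetCard k, cA x y z j Q b A d' with ha2
  have h3 : |a1 - a2 * t| ≤ ∑ k ∈ range (r + 1), ∑ A ∈ (pr w y).powersetCard k,
        |cA x y z j Q b A d - cA x y z j Q b A d' * t| := by
    rw [ha1, ha2, Finset.sum_mul, ← Finset.sum_sub_distrib]
    refine (Finset.abs_sum_le_sum_abs _ _).trans (Finset.sum_le_sum fun k _ => ?_)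
    rw [mul_assoc, ← mul_sub, abs_mul, abs_pow, abs_neg, abs_one, one_pow, one_mul,
      Finset.sum_mul, ← Finset.sum_sub_distrib]
    exact Finset.abs_sum_le_sum_abs _ _
  have h4 : ∑ A ∈ (pr w y).powersetCard (r + 1), cA x y z j Q b A d ≤
      ∑ A ∈ (pr w y).powersetCard (r + 1), |cA x y z j Q b A d - cA x y z j Q b A d' * t|
        + ∑ A ∈ (pr w y).powersetCard (r + 1), cA x y z j Q b A d' * t := by
    rw [← Finset.sum_add_distrib]
    refine Finset.sum_le_sum fun A _ => ?_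
    have := le_abs_self (cA x y z j Q b A d - cA x y z j Q b A d' * t)
    linarith
  have h5 : |a2 - c2| * t ≤
      ∑ A ∈ (pr w y).powersetCard (r + 1), cA x y z j Q b A d' * t := by
    rw [← Finset.sum_mul, abs_sub_comm]
    exact mul_le_mul_of_nonneg_right h2 ht
  have h6 : |c1 - c2 * t| ≤ |c1 - a1| + |a1 - a2 * t| + |a2 - c2| * t := by
    have e : c1 - c2 * t = (c1 - a1) + (a1 - a2 * t) + (a2 - c2) * t := by ring
    rw [e]
    refine (abs_add_three _ _ _).trans ?_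
    rw [abs_mul, abs_of_nonneg ht]
  rw [Finset.sum_range_succ]
  linarith

/-- the class of `n` modulo `Q M` -/
theorem crt_filter (x Q b M s : ℕ) (hb : b < Q) (hM : 0 < M) (co : Nat.Coprime Q M) :
    ∃ b' : ℕ, b' < Q * M ∧ (NQ x Q b).filter (fun n => M ∣ n + s) = NQ x (Q * M) b' := by
  have hQ : 0 < Q := by omega
  set e : ℕ := (M - s % M) % M with he
  have hdv : ∀ n : ℕ, M ∣ n + s ↔ n ≡ e [MOD M] := by
    intro n
    have hs : s % M < M := Nat.mod_lt _ hM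
    have h0 : e + s ≡ 0 [MOD M] := by
      have h1 : e ≡ M - s % M [MOD M] := Nat.mod_modEq _ _
      have h2 : s % M ≡ s [MOD M] := Nat.mod_modEq _ _
      have h3 : e + s ≡ (M - s % M) + s % M [MOD M] := h1.add h2.symm
      have h4 : (M - s % M) + s % M = M := by omega
      rw [h4] at h3
      exact h3.trans (by rw [Nat.modEq_zero_iff_dvd])
    rw [← Nat.modEq_zero_iff_dvd]
    constructor
    · intro h
      exact Nat.ModEq.add_right_cancel' s (h.trans h0.symm)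
    · intro h
      exact (h.add_right s).trans h0
  refine ⟨(Nat.chineseRemainder co b e : ℕ),
    Nat.chineseRemainder_lt_mul co _ _ hQ.ne' hM.ne', ?_⟩
  obtain ⟨h1, h2⟩ := (Nat.chineseRemainder co b e).2
  ext n
  unfold NQ NI
  simp only [mem_filter]
  have hlt := Nat.chineseRemainder_lt_mul co b e hQ.ne' hM.ne'
  constructor
  · rintro ⟨⟨h3, h4⟩, h5⟩
    refine ⟨h3, ?_⟩
    have h6 : n ≡ b [MOD Q] := by rw [Nat.ModEq, h4, Nat.mod_eq_of_lt hb]
    have h7 : n ≡ Nat.chineseRemainder co b e [MOD Q * M] :=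
      Nat.chineseRemainder_modEq_unique co h6 ((hdv n).1 h5)
    rw [Nat.ModEq, Nat.mod_eq_of_lt hlt] at h7
    exact h7
  · rintro ⟨h3, h4⟩
    have h7 : n ≡ Nat.chineseRemainder co b e [MOD Q * M] := by
      rw [Nat.ModEq, Nat.mod_eq_of_lt hlt]
      exact h4
    refine ⟨⟨h3, ?_⟩, ?_⟩
    · have h8 : n ≡ b [MOD Q] := (h7.of_mul_right M).trans h1
      rw [Nat.ModEq, Nat.mod_eq_of_lt hb] at h8
      exact h8
    · exact (hdv n).2 ((h7.of_mul_left Q).trans h2)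

theorem XQ_mul (x Q M : ℕ) : XQ x (Q * M) = XQ x Q * (1 / (M : ℝ)) := by
  unfold XQ XI
  push_cast
  rw [mul_one_div, div_div]

/-- the sizes of the products of the primes -/
theorem prod_le_pow {w y k : ℕ} {A : Finset ℕ} (hA : A ∈ (pr w y).powersetCard k) :
    ∏ p ∈ A, p ≤ y ^ k := by
  obtain ⟨h1, h2⟩ := mem_powersetCard.1 hA
  rw [← h2]
  exact Finset.prod_le_pow_card _ _ _ fun p hp => (mem_pr.1 (h1 hp)).2.1

end Pool.Agent.Helper90.TW
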