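import Pool.Agent.Helper90.TW.ER3a

/-!
# ER3 (project T74 of helper76), part B: the bound for one set of primes
-/

set_option autoImplicit false

open Finset Filter Topology

open scoped Classical

namespace Pool.Agent.Helper90.TW

open Pool.Agent.Helper76.TW
open Pool.Agent.Helper88.PP (pr Rg om Sf SS)
open Pool.Agent.Helper88.RR (nz gg)
open Pool.Agent.Helper88.GM (NI XI)
open Pool.Agent.Helper88.CG (tw pw th sg DS)
open Pool.Agent.Helper88.TU (Su)
open Pool.Agent.Helper6.RR (el alt alt_bound el_le)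
open Pool.Agent.Helper53.CG (pw_bd)
open Pool.Agent.Helper64.RR (mem_pr)

/-- the points with a condition -/
noncomputable def B1 {P : Finset ℕ} (j : ℕ) (d : P → ℕ) : Finset ℕ :=
  insert j ((univ.filter (fun i : P => d i ≠ 0)).image (fun i : P => (i : ℕ)))

/-- the points with a condition, and these points plus `2` -/
noncomputable def B2 {P : Finset ℕ} (j : ℕ) (d : P → ℕ) : Finset ℕ :=
  B1 j d ∪ (B1 j d).image (fun i => i + 2)

theorem B1_sub {P : Finset ℕ} (j : ℕ) (d : P → ℕ) : B1 j d ⊆ insert j P := by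
  intro i hi
  rw [B1, mem_insert, mem_image] at hi
  rcases hi with h | ⟨a, -, h⟩
  · rw [h]
    exact mem_insert_self _ _
  · rw [← h]
    exact mem_insert_of_mem a.2

theorem B1_card {P : Finset ℕ} {j : ℕ} (hj : j ∉ P) (d : P → ℕ) : (B1 j d).card = nz d + 1 := by
  rw [B1, Finset.card_insert_of_notMem, Finset.card_image_of_injective _ Subtype.val_injective, nz]
  intro h
  obtain ⟨a, -, h1⟩ := mem_image.1 h
  exact hj (h1 ▸ a.2)

theorem B2_card {P : Finset ℕ} {j y : ℕ} (hj : j ∉ P) (hs : Sep y (insert j P)) (d : P → ℕ) :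
    (B2 j d).card = 2 * nz d + 2 := by
  rw [B2, Finset.card_union_of_disjoint, Finset.card_image_of_injective _ (add_left_injective 2),
    B1_card hj]
  · ring
  · rw [Finset.disjoint_left]
    intro i hi hi'
    obtain ⟨a, ha, h1⟩ := mem_image.1 hi'
    exact hs.2 a (B1_sub j d ha) i (B1_sub j d hi) h1.symm

theorem B2_sub {P : Finset ℕ} {j y : ℕ} (hs : Sep y (insert j P)) (d : P → ℕ) :
    B2 j d ⊆ Icc 1 y := by
  intro i hi
  rw [mem_Icc]
  rcases mem_union.1 hi with h | h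
  · have := hs.1 i (B1_sub j d h)
    omega
  · obtain ⟨a, ha, h1⟩ := mem_image.1 h
    have := hs.1 a (B1_sub j d ha)
    omega

/-- a prime larger than `z` has no prime factor in `(y, z]` -/
theorem Rg_prime {y z m : ℕ} (hm : m.Prime) (hz : z < m) : Rg y z m := by
  intro p hp h
  obtain ⟨h1, h2, h3⟩ := mem_pr.1 hp
  rcases (Nat.dvd_prime hm).1 h with h4 | h4
  · exact h3.one_lt.ne' h4
  · omega

theorem cj_count {x y z j : ℕ} (hzx : z ≤ x) (hx : 1 ≤ x) {P : Finset ℕ} (d : P → ℕ)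
    (N : Finset ℕ) (hN : ∀ n ∈ N, x < n) :
    CJ x y y z j N (fun i => sg (d i)) ≤
      ((N.filter (fun n => ∀ i ∈ B2 j d, 1 ∣ n + i ∧ Rg y z (n + i))).card : ℝ) := by
  rw [← Finset.sum_boole, CJ]
  refine Finset.sum_le_sum fun n hn => ?_
  obtain ⟨p1, p2⟩ := pj_bd x y z j n hx
  have q1 : 0 ≤ ∏ i : P, icR (R2 y z) (sg (d i)) (n + (i : ℕ)) :=
    Finset.prod_nonneg fun i _ => (icR_bd _ _ _).1
  have q2 : ∏ i : P, icR (R2 y z) (sg (d i)) (n + (i : ℕ)) ≤ 1 :=
    Finset.prod_le_one (fun i _ => (icR_bd _ _ _).1) fun i _ => (icR_bd _ _ _).2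
  by_cases h : ∀ i ∈ B2 j d, 1 ∣ n + i ∧ Rg y z (n + i)
  · rw [if_pos h]
    exact mul_le_one₀ p2 q1 q2
  · rw [if_neg h]
    apply le_of_eq
    push Not at h
    obtain ⟨i, hi, h1⟩ := h
    have h2 : ¬ Rg y z (n + i) := h1 (one_dvd _)
    -- `R2` fails at a point of `B1`
    have h3 : ∃ a ∈ B1 j d, ¬ R2 y z (n + a) := by
      rcases mem_union.1 hi with h4 | h4
      · exact ⟨i, h4, fun h5 => h2 h5.1⟩
      · obtain ⟨a, ha, h5⟩ := mem_image.1 h4
        refine ⟨a, ha, fun h6 => h2 ?_⟩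
        have h7 := h6.2
        rw [← h5]
        exact h7
    obtain ⟨a, ha, h4⟩ := h3
    rcases mem_insert.1 ha with h5 | h5
    · rw [h5] at h4
      have h6 : pj x y z j n = 0 := by
        by_contra hne
        rw [pj] at hne
        have h7 : Rg y z (n + j + 2) := by
          by_contra h8
          rw [if_neg h8, mul_zero] at hne
          exact hne rfl
        have h8 : (n + j).Prime := by
          by_contra h9
          rw [pw, if_neg h9, zero_mul] at hne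
          exact hne rfl
        have h9 := hN n hn
        exact h4 ⟨Rg_prime h8 (by omega), h7⟩
      rw [h6, zero_mul]
    · obtain ⟨i', hi', h6⟩ := mem_image.1 h5
      have h7 : d i' ≠ 0 := (mem_filter.1 hi').2
      have h8 : ∏ i : P, icR (R2 y z) (sg (d i)) (n + (i : ℕ)) = 0 := by
        apply Finset.prod_eq_zero (mem_univ i')
        rw [icR, sg, if_neg h7, if_neg one_ne_zero, if_neg]
        rw [h6]
        exact fun h9 => h4 h9.2
      rw [h8, mul_zero]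

/-- the bound for one set of primes (`hT` comes from TLQ) -/
theorem cA_le {E x y z j w : ℕ} (e : ℝ) (he : e ≤ 1) (hz : 1 ≤ z) (hzx : z ≤ x) (hx : 1 ≤ x)
    {P : Finset ℕ} (hj : j ∉ P) (hs : Sep y (insert j P)) (d : P → ℕ)
    (hd : (2 * nz d + 2) ^ 2 ≤ E) (hgg : 0 ≤ gg y z (2 * nz d + 2)) (Q b : ℕ)
    (A : Finset ℕ) (hQA : ∃ b' : ℕ, Iq x y (Q * ∏ p ∈ A, p) b' ∧
      (NQ x Q b).filter (fun n => (∏ p ∈ A, p) ∣ n + j + 2) = NQ x (Q * ∏ p ∈ A, p) b')
    (hT : ∀ Q b : ℕ, Iq x y Q b → ∀ B : Finset ℕ, B ⊆ Icc 1 y → B.card ^ 2 ≤ E →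
      ∀ d : ℕ → ℕ, (∀ i ∈ B, Sf z (d i)) → ∏ i ∈ B, d i ≤ z ^ (E / 4) →
      (∀ i ∈ B, ∀ j ∈ B, i ≠ j → Nat.Coprime (d i) (d j)) →
      |(((NQ x Q b).filter (fun n => ∀ i ∈ B, d i ∣ n + i ∧ Rg y z (n + i))).card : ℝ)
        - XQ x Q * (gg y z B.card * ∏ i ∈ B, (1 / (d i : ℝ)))|
        ≤ e * (XQ x Q * (gg y z B.card * ∏ i ∈ B, (1 / (d i : ℝ))))) :
    cA x y z j Q b A (fun i => sg (d i)) ≤
      2 * (XQ x Q * (1 / ((∏ p ∈ A, p : ℕ) : ℝ)) * gg y z (2 * nz d + 2)) := by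
  obtain ⟨b', hb', hNb⟩ := hQA
  rw [cA, hNb, ← XQ_mul]
  have h1 := cj_count (y := y) (j := j) hzx hx d (NQ x (Q * ∏ p ∈ A, p) b') (by
    intro n hn
    unfold NQ NI at hn
    exact (mem_Ioc.1 (mem_filter.1 hn).1).1)
  refine h1.trans ?_
  have h2 := hT _ b' hb' (B2 j d) (B2_sub hs d) (by rw [B2_card hj hs d]; exact hd)
    (fun _ => 1) (fun _ _ => ⟨squarefree_one, fun p hp h => absurd (Nat.dvd_one.1 h) hp.one_lt.ne'⟩)
    (by
      rw [Finset.prod_const_one]
      exact Nat.one_le_pow _ _ (by omega))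
    (fun _ _ _ _ _ => Nat.coprime_one_left 1)
  rw [B2_card hj hs d] at h2
  have h3 : ∏ i ∈ B2 j d, (1 / ((1 : ℕ) : ℝ)) = 1 := by
    apply Finset.prod_eq_one
    intro i _
    norm_num
  rw [h3, mul_one] at h2
  have h4 := (abs_le.1 h2).2
  have h5 : 0 ≤ XQ x (Q * ∏ p ∈ A, p) * gg y z (2 * nz d + 2) := by
    apply mul_nonneg _ hgg
    unfold XQ XI
    positivity
  have h6 : e * (XQ x (Q * ∏ p ∈ A, p) * gg y z (2 * nz d + 2)) ≤
      1 * (XQ x (Q * ∏ p ∈ A, p) * gg y z (2 * nz d + 2)) := mul_le_mul_of_nonneg_right he h5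
  linarith

end Pool.Agent.Helper90.TW
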