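import Pool.Agent.Helper83.TW.Goals2

set_option autoImplicit false

namespace Pool.Agent.Helper90.TW

open Complex Pool.Agent.Helper83.TW Filter Topology

theorem isOpen_WG (ρ : ℝ) : IsOpen (WG ρ) := by
  have h1 : IsOpen {p : ℂ × ℂ | |p.1.im| < ρ} :=
    isOpen_lt (continuous_abs.comp (continuous_im.comp continuous_fst)) continuous_const
  have h2 : IsOpen {p : ℂ × ℂ | 1/16 < p.2.re} :=
    isOpen_lt continuous_const (continuous_re.comp continuous_snd)
  have h3 : IsOpen {p : ℂ × ℂ | p.2.re < 47/16} :=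
    isOpen_lt (continuous_re.comp continuous_snd) continuous_const
  have h4 : IsOpen {p : ℂ × ℂ | |p.2.im| < ρ} :=
    isOpen_lt (continuous_abs.comp (continuous_im.comp continuous_snd)) continuous_const
  exact h1.inter (h2.inter (h3.inter h4))

/-- the convex set of admissible second coordinates -/
def CC (ρ η : ℝ) : Set ℂ := {z | 1/4 - η < z.re ∧ z.re < 11/4 + η ∧ |z.im| < ρ/2 + η}

theorem convex_CC (ρ η : ℝ) : Convex ℝ (CC ρ η) := by
  have h1 : CC ρ η = (Complex.reCLM ⁻¹' (Set.Ioo (1/4 - η) (11/4 + η))) ∩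
      (Complex.imCLM ⁻¹' (Set.Ioo (-(ρ/2 + η)) (ρ/2 + η))) := by
    ext z
    simp [CC, abs_lt, and_assoc]
  rw [h1]
  exact ((convex_Ioo _ _).is_linear_preimage Complex.reCLM.toLinearMap.isLinear).inter
    ((convex_Ioo _ _).is_linear_preimage Complex.imCLM.toLinearMap.isLinear)

section
variable {P Q : ℂ × ℂ → ℂ} {ρ η : ℝ}

theorem slice_ball (h : NI P Q ρ η) {x z : ℂ} (hx : |x.im| < ρ) (hz : z ∈ CC ρ η) :
    ∀ z' ∈ Metric.ball z (ρ/4), (x, z') ∈ WG ρ := by
  intro z' hz'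
  rw [Metric.mem_ball, dist_eq_norm] at hz'
  have h1 : |z'.re - z.re| < ρ/4 := by
    have := abs_re_le_norm (z' - z)
    rw [sub_re] at this
    linarith
  have h2 : |z'.im - z.im| < ρ/4 := by
    have := abs_im_le_norm (z' - z)
    rw [sub_im] at this
    linarith
  rw [abs_lt] at h1 h2
  obtain ⟨a, b, c⟩ := hz
  rw [abs_lt] at c
  have e1 := h.hρ0
  have e2 := h.hρ1
  have e3 := h.hη
  have e4 := h.hη0
  refine ⟨hx, ?_, ?_, ?_⟩
  · show 1/16 < z'.re
    linarith
  · show z'.re < 47/16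
    linarith
  · show |z'.im| < ρ
    rw [abs_lt]
    constructor <;> linarith

theorem CC_WG (h : NI P Q ρ η) {x z : ℂ} (hx : |x.im| < ρ) (hz : z ∈ CC ρ η) : (x, z) ∈ WG ρ :=
  slice_ball h hx hz z (Metric.mem_ball_self (by have := h.hρ0; linarith))

theorem slice_diff (h : NI P Q ρ η) {x z : ℂ} (hx : |x.im| < ρ) (hz : z ∈ CC ρ η) :
    DifferentiableOn ℂ (fun z => P (x, z)) (Metric.ball z (ρ/4)) := by
  have h1 : DifferentiableOn ℂ (fun z : ℂ => ((x, z) : ℂ × ℂ)) (Metric.ball z (ρ/4)) := by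
    fun_prop
  exact h.hP.diff.comp h1 (fun z' hz' => slice_ball h hx hz z' hz')

theorem deriv_le (hC : GCau) (h : NI P Q ρ η) {x z : ℂ} (hx : |x.im| < ρ) (hz : z ∈ CC ρ η) :
    ‖deriv (fun z => P (x, z)) z‖ ≤ 1/10 := by
  have e1 := h.hρ0
  have h2 := hC.1 (fun z => P (x, z)) z η (ρ/4) (by linarith) (slice_diff h hx hz)
    (fun z' hz' => h.bP _ (slice_ball h hx hz z' hz'))
  refine h2.trans ?_
  rw [div_le_iff₀ (by linarith)]
  have := h.hη
  have := h.hη0
  linarith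

theorem lip (hC : GCau) (h : NI P Q ρ η) {x z z' : ℂ} (hx : |x.im| < ρ) (hz : z ∈ CC ρ η)
    (hz' : z' ∈ CC ρ η) : ‖P (x, z) - P (x, z')‖ ≤ 1/10 * ‖z - z'‖ := by
  refine (convex_CC ρ η).norm_image_sub_le_of_norm_deriv_le (f := fun z => P (x, z)) ?_
    (fun z hz => deriv_le hC h hx hz) hz' hz
  intro w hw
  exact (slice_diff h hx hw).differentiableAt
    (Metric.isOpen_ball.mem_nhds (Metric.mem_ball_self (by have := h.hρ0; linarith)))

theorem mem_CC (h : NI P Q ρ η) {p : ℂ × ℂ} (hp : p ∈ DG (ρ/2)) {y : ℂ} (hy : ‖y‖ ≤ η) :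
    p.2 + y ∈ CC ρ η := by
  obtain ⟨a, b, c, d⟩ := hp
  have h1 : |y.re| ≤ η := (abs_re_le_norm y).trans hy
  have h2 : |y.im| ≤ η := (abs_im_le_norm y).trans hy
  rw [abs_le] at h1 h2
  rw [abs_lt] at d
  refine ⟨?_, ?_, ?_⟩
  · rw [add_re]; linarith
  · rw [add_re]; linarith
  · rw [add_im, abs_lt]
    constructor <;> linarith

theorem x_lt (h : NI P Q ρ η) {p : ℂ × ℂ} (hp : p ∈ DG (ρ/2)) : |p.1.im| < ρ := by
  have := hp.1
  have := h.hρ0
  linarith

theorem mem_W (h : NI P Q ρ η) {p : ℂ × ℂ} (hp : p ∈ DG (ρ/2)) {y : ℂ} (hy : ‖y‖ ≤ η) :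
    (p.1, p.2 + y) ∈ WG ρ := CC_WG h (x_lt h hp) (mem_CC h hp hy)

/-- the iteration -/
noncomputable def itY (P : ℂ × ℂ → ℂ) : ℕ → ℂ × ℂ → ℂ
  | 0 => fun _ => 0
  | (k+1) => fun p => - P (p.1, p.2 + itY P k p)

theorem exists_y (hO : GOsg) (hC : GCau) (h : NI P Q ρ η) :
    ∃ y : ℂ × ℂ → ℂ, Hol y (DG (ρ/2)) ∧ (∀ p ∈ DG (ρ/2), ‖y p‖ ≤ η) ∧
      (∀ p ∈ DG (ρ/2), y p + P (p.1, p.2 + y p) = 0) ∧
      (∀ p ∈ DG (ρ/2), ∀ y' : ℂ, ‖y'‖ ≤ η → y' + P (p.1, p.2 + y') = 0 → y' = y p) := by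
  obtain ⟨-, hO2⟩ := hO
  set D := DG (ρ/2) with hD
  have hDo : IsOpen D := isOpen_DG _
  have hη0 := h.hη0
  have hbd : ∀ k, ∀ p ∈ D, ‖itY P k p‖ ≤ η := by
    intro k
    induction k with
    | zero => intro p _; simpa [itY] using hη0.le
    | succ k ih =>
      intro p hp
      show ‖- P (p.1, p.2 + itY P k p)‖ ≤ η
      rw [norm_neg]
      exact h.bP _ (mem_W h hp (ih p hp))
  have hper : ∀ k, ∀ p ∈ D, itY P k (p.1 + 1, p.2) = itY P k p := by
    intro k
    induction k with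
    | zero => intro p _; rfl
    | succ k ih =>
      intro p hp
      show - P (p.1 + 1, p.2 + itY P k (p.1 + 1, p.2)) = - P (p.1, p.2 + itY P k p)
      rw [ih p hp]
      have := h.hP.per _ (mem_W h hp (hbd k p hp))
      rw [← this]
  have hsym : ∀ k, ∀ p ∈ D, itY P k (cj p.1, cj p.2) = cj (itY P k p) := by
    intro k
    induction k with
    | zero => intro p _; simp [itY]
    | succ k ih =>
      intro p hp
      show - P (cj p.1, cj p.2 + itY P k (cj p.1, cj p.2)) = cj (- P (p.1, p.2 + itY P k p))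
      rw [ih p hp]
      have := h.hP.sym _ (mem_W h hp (hbd k p hp))
      have h2 : cj p.2 + cj (itY P k p) = cj (p.2 + itY P k p) := by simp
      rw [h2, this]; simp
  have hdiff : ∀ k, DifferentiableOn ℂ (itY P k) D := by
    intro k
    induction k with
    | zero => exact differentiableOn_const 0
    | succ k ih =>
      have h1 : DifferentiableOn ℂ (fun p : ℂ × ℂ => (p.1, p.2 + itY P k p)) D :=
        differentiable_fst.differentiableOn.prodMk (differentiable_snd.differentiableOn.add ih)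
      have h2 : Set.MapsTo (fun p : ℂ × ℂ => (p.1, p.2 + itY P k p)) D (WG ρ) := by
        intro p hp
        exact mem_W h hp (hbd k p hp)
      exact (h.hP.diff.comp h1 h2).neg
  have hlip : ∀ p ∈ D, ∀ y y' : ℂ, ‖y‖ ≤ η → ‖y'‖ ≤ η →
      ‖P (p.1, p.2 + y) - P (p.1, p.2 + y')‖ ≤ 1/10 * ‖y - y'‖ := by
    intro p hp y y' hy hy'
    have := lip hC h (x_lt h hp) (mem_CC h hp hy) (mem_CC h hp hy')
    rwa [add_sub_add_left_eq_sub] at this
  have hstep : ∀ p ∈ D, ∀ k, dist (itY P k p) (itY P (k+1) p) ≤ η * (1/10)^k := by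
    intro p hp k
    induction k with
    | zero =>
      rw [dist_eq_norm]
      show ‖(0:ℂ) - itY P 1 p‖ ≤ η * (1/10)^0
      rw [zero_sub, norm_neg]
      simpa using hbd 1 p hp
    | succ k ih =>
      rw [dist_eq_norm] at ih ⊢
      show ‖- P (p.1, p.2 + itY P k p) - - P (p.1, p.2 + itY P (k+1) p)‖ ≤ _
      have h1 : - P (p.1, p.2 + itY P k p) - - P (p.1, p.2 + itY P (k+1) p)
          = P (p.1, p.2 + itY P (k+1) p) - P (p.1, p.2 + itY P k p) := by ring
      rw [h1]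
      have h2 := hlip p hp _ _ (hbd (k+1) p hp) (hbd k p hp)
      rw [norm_sub_rev (itY P (k+1) p)] at h2
      calc _ ≤ _ := h2
        _ ≤ 1/10 * (η * (1/10)^k) := by gcongr
        _ = η * (1/10)^(k+1) := by ring
  have hcau : ∀ p ∈ D, CauchySeq (fun k => itY P k p) := fun p hp =>
    cauchySeq_of_le_geometric (1/10) η (by norm_num) (hstep p hp)
  set τ : ℂ × ℂ → ℂ := fun p => limUnder atTop (fun k => itY P k p) with hτ
  have hlim : ∀ p ∈ D, Tendsto (fun k => itY P k p) atTop (𝓝 (τ p)) := fun p hp =>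
    (hcau p hp).tendsto_limUnder
  have hunif : TendstoUniformlyOn (itY P) τ atTop D := by
    rw [Metric.tendstoUniformlyOn_iff]
    intro ε hε
    have h1 : Tendsto (fun k : ℕ => η * (1/10:ℝ)^k / (1 - 1/10)) atTop (𝓝 0) := by
      have := (tendsto_pow_atTop_nhds_zero_of_lt_one (r := (1/10:ℝ)) (by norm_num)
        (by norm_num)).const_mul η
      have := this.div_const (1 - 1/10)
      simpa using this
    filter_upwards [(tendsto_order.1 h1).2 ε hε] with k hk
    intro p hp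
    rw [dist_comm]
    exact (dist_le_of_le_geometric_of_tendsto (1/10) η (by norm_num) (hstep p hp)
      (hlim p hp) k).trans_lt hk
  have hτd : DifferentiableOn ℂ τ D := hO2 _ τ D hDo hdiff hunif
  have hτb : ∀ p ∈ D, ‖τ p‖ ≤ η := by
    intro p hp
    exact le_of_tendsto (hlim p hp).norm (Eventually.of_forall fun k => hbd k p hp)
  have hτe : ∀ p ∈ D, τ p + P (p.1, p.2 + τ p) = 0 := by
    intro p hp
    have h1 := hlim p hp
    have h2 : Tendsto (fun k => itY P (k+1) p) atTop (𝓝 (τ p)) :=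
      h1.comp (tendsto_add_atTop_nat 1)
    have h3 : ContinuousAt P (p.1, p.2 + τ p) :=
      ((h.hP.diff _ (mem_W h hp (hτb p hp))).differentiableAt
        ((isOpen_WG ρ).mem_nhds (mem_W h hp (hτb p hp)))).continuousAt
    have h4 : Tendsto (fun k => (p.1, p.2 + itY P k p)) atTop (𝓝 (p.1, p.2 + τ p)) :=
      tendsto_const_nhds.prodMk_nhds (tendsto_const_nhds.add h1)
    have h5 : Tendsto (fun k => itY P (k+1) p) atTop (𝓝 (- P (p.1, p.2 + τ p))) :=
      (h3.tendsto.comp h4).neg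
    have h6 := tendsto_nhds_unique h2 h5
    linear_combination h6
  refine ⟨τ, ⟨hτd, ?_, ?_⟩, hτb, hτe, ?_⟩
  · intro p hp
    have h1 := hlim p hp
    have h2 := hlim _ (DG_shift hp)
    refine tendsto_nhds_unique h2 ?_
    refine h1.congr fun k => ?_
    exact (hper k p hp).symm
  · intro p hp
    have h1 := (Complex.continuous_conj.tendsto _).comp (hlim p hp)
    have h2 := hlim _ (DG_cj hp)
    refine tendsto_nhds_unique h2 ?_
    refine h1.congr fun k => ?_
    exact (hsym k p hp).symm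
  · intro p hp y' hy' he
    have h1 := hlip p hp y' (τ p) hy' (hτb p hp)
    have h2 : P (p.1, p.2 + y') - P (p.1, p.2 + τ p) = -(y' - τ p) := by
      have := hτe p hp
      linear_combination he - this
    rw [h2, norm_neg] at h1
    have h3 : ‖y' - τ p‖ ≤ 0 := by
      have := norm_nonneg (y' - τ p)
      linarith
    exact sub_eq_zero.1 (norm_le_zero_iff.1 h3)

end

end Pool.Agent.Helper90.TW
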